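import Mathlib
import Pool.Agent.Helper9.NS
import Pool.Agent.Helper40.CX.H83QF.Defs
import Pool.Agent.Helper40.CX.Good

namespace CX

/-!
# Invariants and covariants of the quartics, the Jacobian fibration
-/

namespace Pool.Agent.Helper83.QF

open VC VF Function
open Pool.Agent.Helper51.EW (Wei WPt)

universe u

section ring

variable {R : Type*} [CommRing R]

/-- The invariant of degree two. -/
def bI (c : Fin 5 → R) : R := 12 * c 0 * c 4 - 3 * c 1 * c 3 + c 2 ^ 2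

/-- The invariant of degree three. -/
def bJ (c : Fin 5 → R) : R :=
  72 * c 0 * c 2 * c 4 + 9 * c 1 * c 2 * c 3 - 27 * c 0 * c 3 ^ 2 - 27 * c 4 * c 1 ^ 2 - 2 * c 2 ^ 3

/-- The covariant of degree four. -/
def g4 (c : Fin 5 → R) (x : Fin 2 → R) : R :=
  (3 * c 1 ^ 2 - 8 * c 0 * c 2) * x 0 ^ 4 + 4 * (c 1 * c 2 - 6 * c 0 * c 3) * x 0 ^ 3 * x 1 +
    2 * (2 * c 2 ^ 2 - 24 * c 0 * c 4 - 3 * c 1 * c 3) * x 0 ^ 2 * x 1 ^ 2 +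
    4 * (c 2 * c 3 - 6 * c 1 * c 4) * x 0 * x 1 ^ 3 + (3 * c 3 ^ 2 - 8 * c 2 * c 4) * x 1 ^ 4

/-- The covariant of degree six. -/
def g6 (c : Fin 5 → R) (x : Fin 2 → R) : R :=
  (c 1 ^ 3 + 8 * c 0 ^ 2 * c 3 - 4 * c 0 * c 1 * c 2) * x 0 ^ 6 +
    2 * (16 * c 0 ^ 2 * c 4 + 2 * c 0 * c 1 * c 3 - 4 * c 0 * c 2 ^ 2 + c 1 ^ 2 * c 2) *
      x 0 ^ 5 * x 1 +
    5 * (8 * c 0 * c 1 * c 4 + c 1 ^ 2 * c 3 - 4 * c 0 * c 2 * c 3) * x 0 ^ 4 * x 1 ^ 2 +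
    20 * (c 1 ^ 2 * c 4 - c 0 * c 3 ^ 2) * x 0 ^ 3 * x 1 ^ 3 -
    5 * (8 * c 0 * c 3 * c 4 + c 1 * c 3 ^ 2 - 4 * c 1 * c 2 * c 4) * x 0 ^ 2 * x 1 ^ 4 -
    2 * (16 * c 0 * c 4 ^ 2 + 2 * c 1 * c 3 * c 4 - 4 * c 2 ^ 2 * c 4 + c 2 * c 3 ^ 2) *
      x 0 * x 1 ^ 5 -
    (c 3 ^ 3 + 8 * c 1 * c 4 ^ 2 - 4 * c 2 * c 3 * c 4) * x 1 ^ 6

/-- The syzygy. -/
lemma syz (c : Fin 5 → R) (x : Fin 2 → R) :
    27 * g6 c x ^ 2 = g4 c x ^ 3 - 48 * bI c * qu c x ^ 2 * g4 c x - 64 * bJ c * qu c x ^ 3 := by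
  simp only [g6, g4, bI, bJ, qu]
  ring

/-- Up to a factor the discriminant. -/
def dsc (c : Fin 5 → R) : R := 4 * bI c ^ 3 - bJ c ^ 2

end ring

section

variable {k : Type u} [Field k]

lemma hom_mul {A B : MvPolynomial (Fin 2) k} {m n s : ℕ} (hA : A.IsHomogeneous m)
    (hB : B.IsHomogeneous n) (h : m + n = s) : (A * B).IsHomogeneous s := h ▸ hA.mul hB

/-- A product of coefficients whose indices have sum `2 r` is homogeneous. -/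
lemma hom2 (Q : Qua k) (i j : Fin 5) (h : i.val + j.val = 4) :
    (Q.a i * Q.a j).IsHomogeneous (4 * Q.N) := by
  by_cases hi : 2 * Q.e ≤ 2 * Q.N + Q.e * i.val
  · by_cases hj : 2 * Q.e ≤ 2 * Q.N + Q.e * j.val
    · apply hom_mul (Q.hom i hi) (Q.hom j hj)
      have : Q.e * i.val + Q.e * j.val = Q.e * 4 := by rw [← mul_add, h]
      omega
    · rw [Q.zero j (by omega), mul_zero]
      exact MvPolynomial.isHomogeneous_zero _ _ _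
  · rw [Q.zero i (by omega), zero_mul]
    exact MvPolynomial.isHomogeneous_zero _ _ _

lemma hom3 (Q : Qua k) (i j l : Fin 5) (h : i.val + j.val + l.val = 6) :
    (Q.a i * Q.a j * Q.a l).IsHomogeneous (6 * Q.N) := by
  by_cases hi : 2 * Q.e ≤ 2 * Q.N + Q.e * i.val
  · by_cases hj : 2 * Q.e ≤ 2 * Q.N + Q.e * j.val
    · by_cases hl : 2 * Q.e ≤ 2 * Q.N + Q.e * l.val
      · apply hom_mul (hom_mul (Q.hom i hi) (Q.hom j hj) rfl) (Q.hom l hl)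
        have : Q.e * i.val + Q.e * j.val + Q.e * l.val = Q.e * 6 := by rw [← mul_add, ← mul_add, h]
        omega
      · rw [Q.zero l (by omega), mul_zero]
        exact MvPolynomial.isHomogeneous_zero _ _ _
    · rw [Q.zero j (by omega), mul_zero, zero_mul]
      exact MvPolynomial.isHomogeneous_zero _ _ _
  · rw [Q.zero i (by omega), zero_mul, zero_mul]
    exact MvPolynomial.isHomogeneous_zero _ _ _

lemma homC (c : k) {A : MvPolynomial (Fin 2) k} {n : ℕ} (hA : A.IsHomogeneous n) :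
    (MvPolynomial.C c * A).IsHomogeneous n :=
  hom_mul (MvPolynomial.isHomogeneous_C _ c) hA (zero_add n)

/-- The Weierstrass equation of the Jacobian fibration. -/
noncomputable def Qua.wei (Q : Qua k) : Wei k where
  N := Q.N
  A := -27 * bI Q.a
  B := -27 * bJ Q.a
  hA := by
    have h1 := homC (-324) (hom2 Q 0 4 rfl)
    have h2 := homC 81 (hom2 Q 1 3 rfl)
    have h3 := homC (-27) (hom2 Q 2 2 rfl)
    have e : -27 * bI Q.a = MvPolynomial.C (-324) * (Q.a 0 * Q.a 4) +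
        MvPolynomial.C 81 * (Q.a 1 * Q.a 3) + MvPolynomial.C (-27) * (Q.a 2 * Q.a 2) := by
      simp only [bI, map_neg, map_ofNat]
      ring
    rw [e]
    exact (h1.add h2).add h3
  hB := by
    have h1 := homC (-1944) (hom3 Q 0 2 4 rfl)
    have h2 := homC (-243) (hom3 Q 1 2 3 rfl)
    have h3 := homC 729 (hom3 Q 0 3 3 rfl)
    have h4 := homC 729 (hom3 Q 4 1 1 rfl)
    have h5 := homC 54 (hom3 Q 2 2 2 rfl)
    have e : -27 * bJ Q.a = MvPolynomial.C (-1944) * (Q.a 0 * Q.a 2 * Q.a 4) +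
        MvPolynomial.C (-243) * (Q.a 1 * Q.a 2 * Q.a 3) +
        MvPolynomial.C 729 * (Q.a 0 * Q.a 3 * Q.a 3) +
        MvPolynomial.C 729 * (Q.a 4 * Q.a 1 * Q.a 1) +
        MvPolynomial.C 54 * (Q.a 2 * Q.a 2 * Q.a 2) := by
      simp only [bJ, map_neg, map_ofNat]
      ring
    rw [e]
    exact (((h1.add h2).add h3).add h4).add h5

variable {Q : Qua k} {K : Type u} [Field K] [Algebra k K]

lemma aeval_A (Q : Qua k) (u : Fin 2 → K) : MvPolynomial.aeval u Q.wei.A = -27 * bI (cf Q u) := by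
  change MvPolynomial.aeval u (-27 * bI Q.a) = _
  simp only [bI, cf, map_neg, map_mul, map_sub, map_add, map_pow, map_ofNat]

lemma aeval_B (Q : Qua k) (u : Fin 2 → K) : MvPolynomial.aeval u Q.wei.B = -27 * bJ (cf Q u) := by
  change MvPolynomial.aeval u (-27 * bJ Q.a) = _
  simp only [bJ, cf, map_neg, map_mul, map_sub, map_add, map_pow, map_ofNat]

/-- The discriminants of the quartic and of the cubic. -/
lemma disc_eq (Q : Qua k) (u : Fin 2 → K) :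
    4 * (MvPolynomial.aeval u Q.wei.A) ^ 3 + 27 * (MvPolynomial.aeval u Q.wei.B) ^ 2 =
      -19683 * dsc (cf Q u) := by
  rw [aeval_A, aeval_B, dsc]
  ring

/-- The coordinates of the image in the Jacobian fibration. -/
noncomputable def tw (a : Coord Q K) : Fin 3 → K :=
  ![6 * g4 (cf Q a.u) a.x * a.w, 27 * g6 (cf Q a.u) a.x, 8 * a.w ^ 3]

lemma tw_eqn (a : Coord Q K) : tw a 1 ^ 2 * tw a 2 = tw a 0 ^ 3 +
    MvPolynomial.aeval a.u Q.wei.A * tw a 0 * tw a 2 ^ 2 +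
    MvPolynomial.aeval a.u Q.wei.B * tw a 2 ^ 3 := by
  rw [aeval_A, aeval_B]
  change (27 * g6 (cf Q a.u) a.x) ^ 2 * (8 * a.w ^ 3) = (6 * g4 (cf Q a.u) a.x * a.w) ^ 3 +
    -27 * bI (cf Q a.u) * (6 * g4 (cf Q a.u) a.x * a.w) * (8 * a.w ^ 3) ^ 2 +
    -27 * bJ (cf Q a.u) * (8 * a.w ^ 3) ^ 3
  have h1 := syz (cf Q a.u) a.x
  rw [← a.eqn] at h1
  linear_combination 216 * a.w ^ 3 * h1

/-- The image in the Jacobian fibration. -/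
noncomputable def toC (a : Coord Q K) (h : tw a ≠ 0) : Helper51.EW.Coord Q.wei K where
  u := a.u
  w := tw a
  u_ne := a.u_ne
  w_ne := h
  eqn := tw_eqn a

/-- The point `j` of the Jacobian fibration is the image of `P`. -/
def Over (P : QPt Q K) (j : WPt Q.wei K) : Prop :=
  ∃ (a : Coord Q K) (h : tw a ≠ 0), P = QPt.mk a ∧ j = WPt.mk (toC a h)

/-- The covariants at scaled coordinates. -/
lemma g4_scale (Q : Qua k) (l c : K) (hl : l ≠ 0) (u x : Fin 2 → K) :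
    g4 (cf Q (fun s => l * u s)) ![l ^ Q.e * c * x 0, c * x 1] =
      l ^ (4 * Q.N + 2 * Q.e) * c ^ 4 * g4 (cf Q u) x := by
  have h0 := cf_smul Q l u 0
  have h1 := cf_smul Q l u 1
  have h2 := cf_smul Q l u 2
  have h3 := cf_smul Q l u 3
  have h4 := cf_smul Q l u 4
  have hl2 : l ^ (4 * Q.e) ≠ 0 := pow_ne_zero _ hl
  apply mul_left_cancel₀ hl2
  simp only [g4, Matrix.cons_val_zero, Matrix.cons_val_one]
  simp only [Fin.val_zero, Fin.val_one, mul_zero, add_zero, mul_one] at h0 h1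
  have v2 : ((2 : Fin 5) : ℕ) = 2 := rfl
  have v3 : ((3 : Fin 5) : ℕ) = 3 := rfl
  have v4 : ((4 : Fin 5) : ℕ) = 4 := rfl
  rw [v2] at h2
  rw [v3] at h3
  rw [v4] at h4
  have e0 : l ^ (2 * Q.e) = (l ^ Q.e) ^ 2 := by rw [← pow_mul, mul_comm]
  have e0' : l ^ (4 * Q.e) = (l ^ Q.e) ^ 4 := by rw [← pow_mul, mul_comm]
  have e1 : l ^ (2 * Q.N) = (l ^ Q.N) ^ 2 := by rw [← pow_mul, mul_comm]
  have e2 : l ^ (2 * Q.N + Q.e) = (l ^ Q.N) ^ 2 * l ^ Q.e := by rw [pow_add, e1]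
  have e3 : l ^ (2 * Q.N + Q.e * 2) = (l ^ Q.N) ^ 2 * (l ^ Q.e) ^ 2 := by rw [pow_add, e1, pow_mul]
  have e4 : l ^ (2 * Q.N + Q.e * 3) = (l ^ Q.N) ^ 2 * (l ^ Q.e) ^ 3 := by rw [pow_add, e1, pow_mul]
  have e5 : l ^ (2 * Q.N + Q.e * 4) = (l ^ Q.N) ^ 2 * (l ^ Q.e) ^ 4 := by rw [pow_add, e1, pow_mul]
  have e6 : l ^ (4 * Q.N + 2 * Q.e) = (l ^ Q.N) ^ 4 * (l ^ Q.e) ^ 2 := by
    rw [pow_add, mul_comm 4, mul_comm 2, pow_mul, pow_mul]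
  rw [e0, e1] at h0
  rw [e0, e2] at h1
  rw [e0, e3] at h2
  rw [e0, e4] at h3
  rw [e0, e5] at h4
  rw [e0', e6]
  generalize l ^ Q.e = L at *
  generalize l ^ Q.N = P at *
  generalize cf Q (fun s => l * u s) = d at *
  generalize cf Q u = b at *
  have hb0 : ∀ i, L ^ 4 * (d i * d i) = (L ^ 2 * d i) * (L ^ 2 * d i) := fun i => by ring
  have key : L ^ 4 * ((3 * d 1 ^ 2 - 8 * d 0 * d 2) * (L * c * x 0) ^ 4 +
      4 * (d 1 * d 2 - 6 * d 0 * d 3) * (L * c * x 0) ^ 3 * (c * x 1) +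
      2 * (2 * d 2 ^ 2 - 24 * d 0 * d 4 - 3 * d 1 * d 3) * (L * c * x 0) ^ 2 * (c * x 1) ^ 2 +
      4 * (d 2 * d 3 - 6 * d 1 * d 4) * (L * c * x 0) * (c * x 1) ^ 3 +
      (3 * d 3 ^ 2 - 8 * d 2 * d 4) * (c * x 1) ^ 4) =
      (3 * (L ^ 2 * d 1) ^ 2 - 8 * (L ^ 2 * d 0) * (L ^ 2 * d 2)) * (L * c * x 0) ^ 4 +
      4 * ((L ^ 2 * d 1) * (L ^ 2 * d 2) - 6 * (L ^ 2 * d 0) * (L ^ 2 * d 3)) *
        (L * c * x 0) ^ 3 * (c * x 1) +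
      2 * (2 * (L ^ 2 * d 2) ^ 2 - 24 * (L ^ 2 * d 0) * (L ^ 2 * d 4) -
        3 * (L ^ 2 * d 1) * (L ^ 2 * d 3)) * (L * c * x 0) ^ 2 * (c * x 1) ^ 2 +
      4 * ((L ^ 2 * d 2) * (L ^ 2 * d 3) - 6 * (L ^ 2 * d 1) * (L ^ 2 * d 4)) *
        (L * c * x 0) * (c * x 1) ^ 3 +
      (3 * (L ^ 2 * d 3) ^ 2 - 8 * (L ^ 2 * d 2) * (L ^ 2 * d 4)) * (c * x 1) ^ 4 := by ring
  rw [key, h0, h1, h2, h3, h4]
  ring

lemma g6_scale (Q : Qua k) (l c : K) (hl : l ≠ 0) (u x : Fin 2 → K) :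
    g6 (cf Q (fun s => l * u s)) ![l ^ Q.e * c * x 0, c * x 1] =
      l ^ (6 * Q.N + 3 * Q.e) * c ^ 6 * g6 (cf Q u) x := by
  have h0 := cf_smul Q l u 0
  have h1 := cf_smul Q l u 1
  have h2 := cf_smul Q l u 2
  have h3 := cf_smul Q l u 3
  have h4 := cf_smul Q l u 4
  have hl2 : l ^ (6 * Q.e) ≠ 0 := pow_ne_zero _ hl
  apply mul_left_cancel₀ hl2
  simp only [g6, Matrix.cons_val_zero, Matrix.cons_val_one]
  simp only [Fin.val_zero, Fin.val_one, mul_zero, add_zero, mul_one] at h0 h1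
  have v2 : ((2 : Fin 5) : ℕ) = 2 := rfl
  have v3 : ((3 : Fin 5) : ℕ) = 3 := rfl
  have v4 : ((4 : Fin 5) : ℕ) = 4 := rfl
  rw [v2] at h2
  rw [v3] at h3
  rw [v4] at h4
  have e0 : l ^ (2 * Q.e) = (l ^ Q.e) ^ 2 := by rw [← pow_mul, mul_comm]
  have e0' : l ^ (6 * Q.e) = (l ^ Q.e) ^ 6 := by rw [← pow_mul, mul_comm]
  have e1 : l ^ (2 * Q.N) = (l ^ Q.N) ^ 2 := by rw [← pow_mul, mul_comm]
  have e2 : l ^ (2 * Q.N + Q.e) = (l ^ Q.N) ^ 2 * l ^ Q.e := by rw [pow_add, e1]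
  have e3 : l ^ (2 * Q.N + Q.e * 2) = (l ^ Q.N) ^ 2 * (l ^ Q.e) ^ 2 := by rw [pow_add, e1, pow_mul]
  have e4 : l ^ (2 * Q.N + Q.e * 3) = (l ^ Q.N) ^ 2 * (l ^ Q.e) ^ 3 := by rw [pow_add, e1, pow_mul]
  have e5 : l ^ (2 * Q.N + Q.e * 4) = (l ^ Q.N) ^ 2 * (l ^ Q.e) ^ 4 := by rw [pow_add, e1, pow_mul]
  have e6 : l ^ (6 * Q.N + 3 * Q.e) = (l ^ Q.N) ^ 6 * (l ^ Q.e) ^ 3 := by
    rw [pow_add, mul_comm 6, mul_comm 3, pow_mul, pow_mul]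
  rw [e0, e1] at h0
  rw [e0, e2] at h1
  rw [e0, e3] at h2
  rw [e0, e4] at h3
  rw [e0, e5] at h4
  rw [e0', e6]
  generalize l ^ Q.e = L at *
  generalize l ^ Q.N = P at *
  generalize cf Q (fun s => l * u s) = d at *
  generalize cf Q u = b at *
  have key : L ^ 6 * ((d 1 ^ 3 + 8 * d 0 ^ 2 * d 3 - 4 * d 0 * d 1 * d 2) * (L * c * x 0) ^ 6 +
      2 * (16 * d 0 ^ 2 * d 4 + 2 * d 0 * d 1 * d 3 - 4 * d 0 * d 2 ^ 2 + d 1 ^ 2 * d 2) *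
        (L * c * x 0) ^ 5 * (c * x 1) +
      5 * (8 * d 0 * d 1 * d 4 + d 1 ^ 2 * d 3 - 4 * d 0 * d 2 * d 3) * (L * c * x 0) ^ 4 *
        (c * x 1) ^ 2 +
      20 * (d 1 ^ 2 * d 4 - d 0 * d 3 ^ 2) * (L * c * x 0) ^ 3 * (c * x 1) ^ 3 -
      5 * (8 * d 0 * d 3 * d 4 + d 1 * d 3 ^ 2 - 4 * d 1 * d 2 * d 4) * (L * c * x 0) ^ 2 *
        (c * x 1) ^ 4 -
      2 * (16 * d 0 * d 4 ^ 2 + 2 * d 1 * d 3 * d 4 - 4 * d 2 ^ 2 * d 4 + d 2 * d 3 ^ 2) *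
        (L * c * x 0) * (c * x 1) ^ 5 -
      (d 3 ^ 3 + 8 * d 1 * d 4 ^ 2 - 4 * d 2 * d 3 * d 4) * (c * x 1) ^ 6) =
      ((L ^ 2 * d 1) ^ 3 + 8 * (L ^ 2 * d 0) ^ 2 * (L ^ 2 * d 3) -
        4 * (L ^ 2 * d 0) * (L ^ 2 * d 1) * (L ^ 2 * d 2)) * (L * c * x 0) ^ 6 +
      2 * (16 * (L ^ 2 * d 0) ^ 2 * (L ^ 2 * d 4) + 2 * (L ^ 2 * d 0) * (L ^ 2 * d 1) *
        (L ^ 2 * d 3) - 4 * (L ^ 2 * d 0) * (L ^ 2 * d 2) ^ 2 + (L ^ 2 * d 1) ^ 2 *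
        (L ^ 2 * d 2)) * (L * c * x 0) ^ 5 * (c * x 1) +
      5 * (8 * (L ^ 2 * d 0) * (L ^ 2 * d 1) * (L ^ 2 * d 4) + (L ^ 2 * d 1) ^ 2 *
        (L ^ 2 * d 3) - 4 * (L ^ 2 * d 0) * (L ^ 2 * d 2) * (L ^ 2 * d 3)) *
        (L * c * x 0) ^ 4 * (c * x 1) ^ 2 +
      20 * ((L ^ 2 * d 1) ^ 2 * (L ^ 2 * d 4) - (L ^ 2 * d 0) * (L ^ 2 * d 3) ^ 2) *
        (L * c * x 0) ^ 3 * (c * x 1) ^ 3 -
      5 * (8 * (L ^ 2 * d 0) * (L ^ 2 * d 3) * (L ^ 2 * d 4) + (L ^ 2 * d 1) *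
        (L ^ 2 * d 3) ^ 2 - 4 * (L ^ 2 * d 1) * (L ^ 2 * d 2) * (L ^ 2 * d 4)) *
        (L * c * x 0) ^ 2 * (c * x 1) ^ 4 -
      2 * (16 * (L ^ 2 * d 0) * (L ^ 2 * d 4) ^ 2 + 2 * (L ^ 2 * d 1) * (L ^ 2 * d 3) *
        (L ^ 2 * d 4) - 4 * (L ^ 2 * d 2) ^ 2 * (L ^ 2 * d 4) + (L ^ 2 * d 2) *
        (L ^ 2 * d 3) ^ 2) * (L * c * x 0) * (c * x 1) ^ 5 -
      ((L ^ 2 * d 3) ^ 3 + 8 * (L ^ 2 * d 1) * (L ^ 2 * d 4) ^ 2 - 4 * (L ^ 2 * d 2) *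
        (L ^ 2 * d 3) * (L ^ 2 * d 4)) * (c * x 1) ^ 6 := by ring
  rw [key, h0, h1, h2, h3, h4]
  ring

end

end Pool.Agent.Helper83.QF

end CX
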