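import Mathlib
import Pool.Agent.Helper9.NS
import Pool.Agent.Helper40.CX.H94VQ.MoveLift
import Pool.Agent.Helper40.CX.H17FF.Genus
import Pool.Agent.Helper40.CX.H83VF.Kill
import Pool.Agent.Helper40.CX.H70VP.RH2
import Pool.Agent.Helper40.CX.Good2

namespace CX

/-!
# Block SUM: push-forward of functions on the points of a curve
Proof. (1) `sum_ram`: for a place `P` of `K` the sum of the ramification indices `ram` (see
`Helper70/VP/RH2.lean`: `ram`, `ord_ram`, `exists_res`, `finite_res`) over the places `Q` with
`res Q = P` is `[L : K]`. Choose by Riemann's inequality (`FF.exists_genus`, `Helper17/FF/Genus`)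
a nonconstant `h` in `K` whose only pole is `P`, of order `m > 0` (`m = [K : k(h)]` by the degree
formula in `Helper17/FF/Degree`, `Helper26/VC`: number of poles with multiplicities). The poles of
`h` in `L` are the `Q` over `P`, with order `ram Q * m`, so `m * sum ram = [L : k(h)] =
[L : K] [K : k(h)] = [L : K] m`.
(2) In `kills_res` group the sum over the places `Q` of `L` by `P = res Q`:
`ord Q (algebraMap h) = ram Q * ord P h`, so the left side is `[L : K] * sum_P ord P h * g P`, and
`[L : K]` is not zero in `k`.
-/

set_option linter.unusedSectionVars false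

namespace Pool.Agent.Helper83.QF

open VC VF Function

universe u

variable {k : Type u} [Field k] [IsAlgClosed k] [Good k]

section ramsum

variable {K L : Type u} [Field K] [Algebra k K] [Field L] [Algebra k L] [Algebra K L]
    [IsScalarTower k K L] (hK : IsFunctionField k K) (hL : IsFunctionField k L)

/-- The pullback of divisors. -/
noncomputable def pb : (Place k K →₀ ℤ) →+ (Place k L →₀ ℤ) where
  toFun := VP.pull hK hL
  map_zero' := by
    ext Q
    rw [VP.pull_apply, Finsupp.zero_apply, Finsupp.zero_apply, mul_zero]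
  map_add' D D' := by
    ext Q
    rw [Finsupp.add_apply, VP.pull_apply, VP.pull_apply, VP.pull_apply, Finsupp.add_apply, mul_add]

lemma pb_apply (D : Place k K →₀ ℤ) (Q : Place k L) :
    pb hK hL D Q = VP.ram hK hL Q * D (VQ.res hK hL Q) := rfl

lemma pb_dv {h : K} (h0 : h ≠ 0) : pb hK hL (FF.dv hK h) = FF.dv hL (algebraMap K L h) := by
  ext Q
  rw [pb_apply, FF.dv_apply, FF.dv_apply, VP.ord_ram hK hL Q h h0]

open Classical in
lemma pb_single (P : Place k K) (m : ℤ) : pb hK hL (Finsupp.single P m) =
    ∑ Q ∈ (VP.finite_res hK hL P).toFinset, Finsupp.single Q (VP.ram hK hL Q * m) := by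
  ext Q
  rw [pb_apply, Finsupp.finsetSum_apply, Finsupp.single_apply]
  by_cases hQ : VQ.res hK hL Q = P
  · have hmem : Q ∈ (VP.finite_res hK hL P).toFinset := by
      rw [Set.Finite.mem_toFinset]; exact hQ
    rw [if_pos hQ.symm, Finset.sum_eq_single_of_mem Q hmem]
    · rw [Finsupp.single_eq_same]
    · intro b _ hb
      rw [Finsupp.single_apply, if_neg hb]
  · rw [if_neg (fun h => hQ h.symm), mul_zero]
    symm
    apply Finset.sum_eq_zero
    intro b hb
    rw [Finsupp.single_apply, if_neg]
    rintro rfl
    rw [Set.Finite.mem_toFinset] at hb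
    exact hQ hb

/-- The sum of the ramification indices over a place. -/
noncomputable def nram (P : Place k K) : ℤ :=
  ∑ Q ∈ (VP.finite_res hK hL P).toFinset, VP.ram hK hL Q

lemma deg_pb_single (P : Place k K) (m : ℤ) :
    FF.deg (pb hK hL (Finsupp.single P m)) = nram hK hL P * m := by
  classical
  rw [pb_single, map_sum, nram, Finset.sum_mul]
  exact Finset.sum_congr rfl fun Q _ => FF.deg_single Q _

lemma nram_pos (P : Place k K) : 0 < nram hK hL P := by
  obtain ⟨Q, hQ⟩ := VP.exists_res hK hL P
  have hmem : Q ∈ (VP.finite_res hK hL P).toFinset := by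
    rw [Set.Finite.mem_toFinset]; exact hQ
  exact Finset.sum_pos (fun R _ => VP.ram_pos hK hL R) ⟨Q, hmem⟩

/-- The sum of the ramification indices is the same for all places. -/
lemma nram_le (P P' : Place k K) : nram hK hL P' ≤ nram hK hL P := by
  classical
  obtain ⟨g, hg⟩ := FF.exists_genus hK
  have key : ∀ m : ℕ, 0 ≤ nram hK hL P * m - nram hK hL P' * m + nram hK hL P * g := by
    intro m
    let D : Place k K →₀ ℤ := Finsupp.single P (m : ℤ) - Finsupp.single P' (m : ℤ) +
      Finsupp.single P (g : ℤ)
    have hdeg : FF.deg D = g := by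
      simp only [D, map_add, map_sub, FF.deg_single]
      ring
    have h1 := FF.ell_ge hg D
    rw [hdeg] at h1
    have h2 : 0 < Module.finrank k (riemannRochSpace k K D) := by
      change 0 < FF.ell D
      omega
    obtain ⟨⟨f, hf⟩, hf0⟩ : ∃ f : riemannRochSpace k K D, f ≠ 0 := by
      by_contra hcon
      push Not at hcon
      have h5 : Subsingleton (riemannRochSpace k K D) :=
        ⟨fun a b => by rw [hcon a, hcon b]⟩
      rw [Module.finrank_zero_of_subsingleton] at h2
      exact lt_irrefl _ h2
    have hf1 : f ≠ 0 := fun h => hf0 (Subtype.ext h)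
    have h3 := (FF.mem_rr hK D hf1).mp hf
    have h4 : 0 ≤ FF.deg (pb hK hL (FF.dv hK f + D)) := by
      apply FF.deg_nonneg
      intro Q
      rw [pb_apply, Finsupp.add_apply, FF.dv_apply]
      exact mul_nonneg (VP.ram_pos hK hL Q).le (h3 _)
    rw [map_add, map_add, pb_dv hK hL hf1, FF.deg_dv hL ((_root_.map_ne_zero _).mpr hf1),
      zero_add] at h4
    simp only [D, map_add, map_sub, deg_pb_single] at h4
    exact h4
  by_contra hcon
  push Not at hcon
  have h1 := key (nram hK hL P * g + 1).toNat
  have h2 : ((nram hK hL P * g + 1).toNat : ℤ) = nram hK hL P * g + 1 := by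
    apply Int.toNat_of_nonneg
    have := nram_pos hK hL P
    positivity
  rw [h2] at h1
  have h3 := nram_pos hK hL P
  have h4 : (0 : ℤ) ≤ nram hK hL P * g := by positivity
  nlinarith

lemma nram_eq (P P' : Place k K) : nram hK hL P' = nram hK hL P :=
  le_antisymm (nram_le hK hL P P') (nram_le hK hL P' P)

end ramsum

theorem kills_res {K L : Type u} [Field K] [Algebra k K] [Field L] [Algebra k L] [Algebra K L]
    [IsScalarTower k K L] (hK : IsFunctionField k K) (hL : IsFunctionField k L)
    (g : Place k K → ℂ) {h : K} (h0 : h ≠ 0) (h1 : algebraMap K L h ≠ 0)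
    (H : ∑ v ∈ (finite_support_ord hL h1).toFinset,
      (ord v.ring (algebraMap K L h) : ℂ) * g (VQ.res hK hL v) = 0) :
    ∑ v ∈ (finite_support_ord hK h0).toFinset, (ord v.ring h : ℂ) * g v = 0 := by
  classical
  -- the sums as homomorphisms
  let ΦL : (Place k L →₀ ℤ) →+ ℂ := Finsupp.liftAddHom fun v =>
    (AddMonoidHom.mulRight (g (VQ.res hK hL v))).comp (Int.castAddHom ℂ)
  let ΦK : (Place k K →₀ ℤ) →+ ℂ := Finsupp.liftAddHom fun v =>
    (AddMonoidHom.mulRight (g v)).comp (Int.castAddHom ℂ)
  have hΦL : ∀ v m, ΦL (Finsupp.single v m) = (m : ℂ) * g (VQ.res hK hL v) := by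
    intro v m
    simp [ΦL]
  have hΦK : ∀ v m, ΦK (Finsupp.single v m) = (m : ℂ) * g v := by
    intro v m
    simp [ΦK]
  have hL2 : ΦL (FF.dv hL (algebraMap K L h)) = 0 := by
    rw [← H]
    have h2 : FF.dv hL (algebraMap K L h) = ∑ v ∈ (finite_support_ord hL h1).toFinset,
        Finsupp.single v (ord v.ring (algebraMap K L h)) := by
      ext Q
      rw [FF.dv_apply, Finsupp.finsetSum_apply]
      by_cases hQ : Q ∈ (finite_support_ord hL h1).toFinset
      · rw [Finset.sum_eq_single_of_mem Q hQ]
        · rw [Finsupp.single_eq_same]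
        · intro b _ hb
          rw [Finsupp.single_apply, if_neg hb]
      · rw [Finset.sum_eq_zero]
        · by_contra h3
          apply hQ
          rw [Set.Finite.mem_toFinset]
          exact h3
        · intro b hb
          rw [Finsupp.single_apply, if_neg]
          rintro rfl
          exact hQ hb
    rw [h2, map_sum]
    exact Finset.sum_congr rfl fun v _ => hΦL v _
  have hK2 : ΦK (FF.dv hK h) =
      ∑ v ∈ (finite_support_ord hK h0).toFinset, (ord v.ring h : ℂ) * g v := by
    have h2 : FF.dv hK h = ∑ v ∈ (finite_support_ord hK h0).toFinset,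
        Finsupp.single v (ord v.ring h) := by
      ext Q
      rw [FF.dv_apply, Finsupp.finsetSum_apply]
      by_cases hQ : Q ∈ (finite_support_ord hK h0).toFinset
      · rw [Finset.sum_eq_single_of_mem Q hQ]
        · rw [Finsupp.single_eq_same]
        · intro b _ hb
          rw [Finsupp.single_apply, if_neg hb]
      · rw [Finset.sum_eq_zero]
        · by_contra h3
          apply hQ
          rw [Set.Finite.mem_toFinset]
          exact h3
        · intro b hb
          rw [Finsupp.single_apply, if_neg]
          rintro rfl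
          exact hQ hb
    rw [h2, map_sum]
    exact Finset.sum_congr rfl fun v _ => hΦK v _
  rw [← hK2]
  rcases isEmpty_or_nonempty (Place k K) with hE | ⟨⟨P0⟩⟩
  · have h2 : FF.dv hK h = 0 := by
      ext Q
      exact (hE.false Q).elim
    rw [h2, map_zero]
  have hcomp : ∀ D, ΦL (pb hK hL D) = (nram hK hL P0 : ℂ) * ΦK D := by
    intro D
    induction D using Finsupp.induction_linear with
    | zero => rw [map_zero, map_zero, map_zero, mul_zero]
    | add D D' hD hD' => rw [map_add, map_add, map_add, hD, hD', mul_add]
    | single P m =>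
      rw [pb_single, map_sum, hΦK, ← nram_eq hK hL P0 P, nram]
      push_cast
      rw [Finset.sum_mul]
      apply Finset.sum_congr rfl
      intro Q hQ
      rw [Set.Finite.mem_toFinset] at hQ
      have hQ' : VQ.res hK hL Q = P := hQ
      rw [hΦL, hQ']
      push_cast
      ring
  have h2 := hcomp (FF.dv hK h)
  rw [pb_dv hK hL h0, hL2] at h2
  rcases mul_eq_zero.mp h2.symm with h3 | h3
  · exfalso
    have h4 := nram_pos hK hL P0
    exact (Int.cast_ne_zero.mpr h4.ne') h3
  · exact h3

end Pool.Agent.Helper83.QF

end CX
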