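import Mathlib
import Pool.Agent.Helper9.NS
import Pool.Agent.Helper40.CX.H83QF.Pt
import Pool.Agent.Helper40.CX.Good2

namespace CX

/-!
# Block EXI: points of the quartic over a given point of the Jacobian fibration
Proof. Let `j = mk b`, `b.w = (X : Y : Z)`, `c = cf Q b.u`, `dsc c ≠ 0`.
If `Z = 0` then `X = 0`, `Y ≠ 0` (as in `EW.aff_or_zero`): take `x ≠ 0` with `qu c x = 0` (a binary
form of degree 4 over an algebraically closed field has a zero), `w = 0`. By (*) below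
`g4 c x ≠ 0`, so by `syz` `g6 c x ≠ 0`, `tw a = (0, 27 g6, 0)`.
If `Z ≠ 0` normalise `Z = 1` (`EW.aff_or_zero`). Take `x ≠ 0` with `3 * g4 c x = 4 * X * qu c x` (again
a binary form of degree 4 in `x`). By (*) `qu c x ≠ 0`. Let `w ^ 2 = qu c x`. Then
`6 g4 w = 8 w ^ 3 X`, and by `syz` and the equation of `j`, `(27 g6) ^ 2 = (8 w ^ 3 Y) ^ 2`, so
`27 g6 = 8 w ^ 3 Y` after replacing `w` by `- w` if necessary.
(*) If `x ≠ 0`, `qu c x = 0` and `g4 c x = 0` then `dsc c = 0`. Indeed, if `y` is any vector with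
`x 0 * y 1 - x 1 * y 0 = 1` and `c'` the coefficients of `qu c (s x + t y)` then `c' 0 = qu c x = 0`,
`3 c' 1 ^ 2 - 8 c' 0 c' 2 = g4 c x`, so `c' 1 = 0` and `dsc c' = 0`, and `dsc c' = dsc c`.
(It may be easier to treat `x 0 ≠ 0` and `x 0 = 0` separately: by homogeneity `x = (1, z)` or
`(0, 1)`; then `qu = 0` and `g4 = 0` give a double root at `z`.)
-/

set_option linter.unusedSectionVars false

namespace Pool.Agent.Helper83.QF

open VC VF Function
open Pool.Agent.Helper51.EW (Wei WPt)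

universe u

variable {k : Type u} [Field k] {Q : Qua k}

/-- (*) of the header. -/
theorem dsc_zero {L : Type u} [Field L] [Good L] (c : Fin 5 → L) (x : Fin 2 → L) (hx : x ≠ 0)
    (h : qu c x = 0) (h4 : g4 c x = 0) : dsc c = 0 := by
  have h3 : (3 : L) ≠ 0 := by norm_num
  by_cases hx0 : x 0 = 0
  · have hx1 : x 1 ≠ 0 := by
      intro hx1
      apply hx
      funext i
      fin_cases i
      · exact hx0
      · exact hx1
    have e4 : c 4 = 0 := by
      simp only [qu, hx0] at h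
      have : c 4 * x 1 ^ 4 = 0 := by linear_combination h
      exact (mul_eq_zero.mp this).resolve_right (pow_ne_zero _ hx1)
    have e3 : c 3 = 0 := by
      simp only [g4, hx0, e4] at h4
      have : 3 * c 3 ^ 2 * x 1 ^ 4 = 0 := by linear_combination h4
      have h5 := (mul_eq_zero.mp this).resolve_right (pow_ne_zero _ hx1)
      exact (pow_eq_zero_iff (by norm_num)).mp ((mul_eq_zero.mp h5).resolve_left h3)
    simp only [dsc, bI, bJ, e4, e3]
    ring
  · set z : L := x 1 / x 0 with hz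
    have hz1 : x 1 = z * x 0 := by rw [hz]; field_simp
    have hp : c 0 + c 1 * z + c 2 * z ^ 2 + c 3 * z ^ 3 + c 4 * z ^ 4 = 0 := by
      simp only [qu, hz1] at h
      have : (c 0 + c 1 * z + c 2 * z ^ 2 + c 3 * z ^ 3 + c 4 * z ^ 4) * x 0 ^ 4 = 0 := by
        linear_combination h
      exact (mul_eq_zero.mp this).resolve_right (pow_ne_zero _ hx0)
    have hp' : c 1 + 2 * c 2 * z + 3 * c 3 * z ^ 2 + 4 * c 4 * z ^ 3 = 0 := by
      simp only [g4, hz1] at h4
      have h5 : (3 * (c 1 + 2 * c 2 * z + 3 * c 3 * z ^ 2 + 4 * c 4 * z ^ 3) ^ 2) * x 0 ^ 4 =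
          0 := by
        linear_combination h4 + 8 * x 0 ^ 4 * (c 2 + 3 * c 3 * z + 6 * c 4 * z ^ 2) * hp
      have h6 := (mul_eq_zero.mp h5).resolve_right (pow_ne_zero _ hx0)
      exact (pow_eq_zero_iff (by norm_num)).mp ((mul_eq_zero.mp h6).resolve_left h3)
    have e1 : c 1 = -(2 * c 2 * z + 3 * c 3 * z ^ 2 + 4 * c 4 * z ^ 3) := by
      linear_combination hp'
    have e0 : c 0 = c 2 * z ^ 2 + 2 * c 3 * z ^ 3 + 3 * c 4 * z ^ 4 := by
      linear_combination hp - z * hp'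
    simp only [dsc, bI, bJ, e1, e0]
    ring

theorem exists_zero_qu {L : Type u} [Field L] [IsAlgClosed L] (c : Fin 5 → L) :
    ∃ x : Fin 2 → L, x ≠ 0 ∧ qu c x = 0 := by
  by_cases h4 : c 4 = 0
  · refine ⟨![0, 1], fun h => one_ne_zero (congrFun h 1), ?_⟩
    simp [qu, h4]
  · open Polynomial in
    let p : L[X] := C (c 4) * X ^ 4 + C (c 3) * X ^ 3 + C (c 2) * X ^ 2 + C (c 1) * X + C (c 0)
    have hd : p.degree ≠ 0 := by
      have : p.degree = 4 := by
        simp only [p]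
        compute_degree!
      rw [this]
      norm_num
    obtain ⟨z, hz⟩ := IsAlgClosed.exists_root p hd
    refine ⟨![1, z], fun h => one_ne_zero (congrFun h 0), ?_⟩
    have hz' : c 4 * z ^ 4 + c 3 * z ^ 3 + c 2 * z ^ 2 + c 1 * z + c 0 = 0 := by
      simpa [p] using hz
    simp only [qu, Matrix.cons_val_zero, Matrix.cons_val_one]
    linear_combination hz'

theorem exists_over {L : Type u} [Field L] [Algebra k L] [IsAlgClosed L] [Good L]
    (j : WPt Q.wei L) (hd : DW j) : ∃ P : QPt Q L, Over P j := by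
  rcases Helper51.EW.aff_or_zero j with ⟨u, hu, rfl⟩ | ⟨u, X, Y, hu, hXY, rfl⟩
  · have hd' : dsc (cf Q u) ≠ 0 := (dw_mk (Helper51.EW.zeroC u hu)).mp hd
    obtain ⟨x, hx, hqu⟩ := exists_zero_qu (cf Q u)
    have hg4 : g4 (cf Q u) x ≠ 0 := fun h => hd' (dsc_zero _ x hx hqu h)
    have hs := syz (cf Q u) x
    have hg6 : g6 (cf Q u) x ≠ 0 := by
      intro h
      rw [h, hqu] at hs
      have : g4 (cf Q u) x ^ 3 = 0 := by linear_combination -hs
      exact hg4 ((pow_eq_zero_iff (by norm_num)).mp this)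
    let a : Coord Q L := ⟨u, x, 0, hu, hx, by rw [hqu]; ring⟩
    have e0 : tw a 0 = 0 := by
      change 6 * g4 (cf Q u) x * 0 = 0
      ring
    have e1 : tw a 1 = 27 * g6 (cf Q u) x := rfl
    have e2 : tw a 2 = 0 := by
      change 8 * (0 : L) ^ 3 = 0
      ring
    have h27 : 27 * g6 (cf Q u) x ≠ 0 := mul_ne_zero (by norm_num) hg6
    have hne : tw a ≠ 0 := by
      intro h
      apply h27
      rw [← e1, h]
      rfl
    refine ⟨QPt.mk a, over_mk.mpr ⟨hne, ?_⟩⟩
    refine Helper51.EW.mk_eq_iff.mpr ⟨1, 27 * g6 (cf Q u) x, one_ne_zero, h27,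
      fun i => (one_mul _).symm, fun i => ?_⟩
    rw [one_pow, one_mul]
    change tw a i = 27 * g6 (cf Q u) x * (![0, 1, 0] : Fin 3 → L) i
    fin_cases i
    · change tw a 0 = 27 * g6 (cf Q u) x * 0
      rw [e0, mul_zero]
    · change tw a 1 = 27 * g6 (cf Q u) x * 1
      rw [e1, mul_one]
    · change tw a 2 = 27 * g6 (cf Q u) x * 0
      rw [e2, mul_zero]
  · have hd' : dsc (cf Q u) ≠ 0 := (dw_mk (Helper51.EW.affC u X Y hu hXY)).mp hd
    set c := cf Q u with hc
    obtain ⟨x, hx, hq⟩ := exists_zero_qu (L := L)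
      ![3 * (3 * c 1 ^ 2 - 8 * c 0 * c 2) - 4 * X * c 0,
        3 * (4 * (c 1 * c 2 - 6 * c 0 * c 3)) - 4 * X * c 1,
        3 * (2 * (2 * c 2 ^ 2 - 24 * c 0 * c 4 - 3 * c 1 * c 3)) - 4 * X * c 2,
        3 * (4 * (c 2 * c 3 - 6 * c 1 * c 4)) - 4 * X * c 3,
        3 * (3 * c 3 ^ 2 - 8 * c 2 * c 4) - 4 * X * c 4]
    have hgX : 3 * g4 c x = 4 * X * qu c x := by
      have v : ∀ (a0 a1 a2 a3 a4 : L), qu ![a0, a1, a2, a3, a4] x = a0 * x 0 ^ 4 +
        a1 * x 0 ^ 3 * x 1 + a2 * x 0 ^ 2 * x 1 ^ 2 + a3 * x 0 * x 1 ^ 3 + a4 * x 1 ^ 4 :=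
        fun _ _ _ _ _ => rfl
      rw [v] at hq
      simp only [g4, qu]
      linear_combination hq
    have hqu : qu c x ≠ 0 := by
      intro h
      apply hd'
      apply dsc_zero _ x hx h
      rw [h] at hgX
      have : 3 * g4 c x = 0 := by rw [hgX]; ring
      exact (mul_eq_zero.mp this).resolve_left (by norm_num)
    obtain ⟨w, hw⟩ := IsAlgClosed.exists_pow_nat_eq (qu c x) (n := 2) (by norm_num)
    have hw0 : w ≠ 0 := by
      rintro rfl
      apply hqu
      rw [← hw]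
      ring
    rw [aeval_A, aeval_B] at hXY
    have hs := syz c x
    have hsq : (27 * g6 c x - 8 * w ^ 3 * Y) * (27 * g6 c x + 8 * w ^ 3 * Y) = 0 := by
      rw [← hw] at hs hgX
      linear_combination 27 * hs - 64 * w ^ 6 * hXY + ((3 * g4 c x) ^ 2 + (3 * g4 c x) * (4 * X * w ^ 2) +
        (4 * X * w ^ 2) ^ 2 - 432 * bI c * w ^ 4) * hgX
    have key : ∀ w' : L, w' ≠ 0 → w' ^ 2 = qu c x → 27 * g6 c x = 8 * w' ^ 3 * Y →
        ∃ P : QPt Q L, Over P (Helper51.EW.aff u X Y hu (by rw [aeval_A, aeval_B]; exact hXY)) := by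
      intro w' hw'0 hw' h6
      let a : Coord Q L := ⟨u, x, w', hu, hx, hw'⟩
      have e0 : tw a 0 = 8 * w' ^ 3 * X := by
        change 6 * g4 c x * w' = 8 * w' ^ 3 * X
        rw [← hw'] at hgX
        linear_combination 2 * w' * hgX
      have e1 : tw a 1 = 8 * w' ^ 3 * Y := h6
      have e2 : tw a 2 = 8 * w' ^ 3 := rfl
      have h8 : 8 * w' ^ 3 ≠ 0 := mul_ne_zero (by norm_num) (pow_ne_zero _ hw'0)
      have hne : tw a ≠ 0 := by
        intro h
        apply h8
        rw [← e2, h]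
        rfl
      refine ⟨QPt.mk a, over_mk.mpr ⟨hne, ?_⟩⟩
      refine Helper51.EW.mk_eq_iff.mpr ⟨1, 8 * w' ^ 3, one_ne_zero, h8,
        fun i => (one_mul _).symm, fun i => ?_⟩
      rw [one_pow, one_mul]
      change tw a i = 8 * w' ^ 3 * (![X, Y, 1] : Fin 3 → L) i
      fin_cases i
      · exact e0
      · exact e1
      · change tw a 2 = 8 * w' ^ 3 * 1
        rw [e2, mul_one]
    rcases mul_eq_zero.mp hsq with h | h
    · exact key w hw0 hw (by linear_combination h)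
    · exact key (-w) (neg_ne_zero.mpr hw0) (by rw [neg_sq]; exact hw) (by linear_combination h)

end Pool.Agent.Helper83.QF

end CX
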