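import Mathlib
import Pool.Agent.Helper9.NS
import Pool.Agent.Helper40.CX.H83VF.Fields
import Pool.Agent.Helper40.CX.H83QF.Exi
import Pool.Agent.Helper40.CX.H83QF.Bc
import Pool.Agent.Helper40.CX.Good2

namespace CX

/-!
# Block LFT: lifting points of the Jacobian fibration over a function field
Proof. Let `Ω` be an algebraic closure of `K`. `DW (j i)` implies `DW (wmap ι (j i))`
(`dw_mk`, the discriminant is mapped to the discriminant), so by `exists_over` there are
`P i : QPt Q Ω` over `wmap ι (j i)`; write `P i = mk (a i)`, `j i = mk (b i)`; by `over_mk` there are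
scalars `l i, c i` in `Ω` with `toC (a i)` and `cmap ι (b i)` related by them (`EW.mk_eq_iff`).
Let `L` be the subfield of `Ω` generated over `K` by the finitely many elements
`(a i).u s, (a i).x s, (a i).w, l i, c i`; it is finite over `K`, a function field by `VF.ff_ext`
(see `Helper83/KV/FF.lean`, `exists_ff`, for the same construction), and everything is defined
over `L`.
-/

set_option linter.unusedSectionVars false

namespace Pool.Agent.Helper83.QF

open VC VF Function
open Pool.Agent.Helper51.EW (Wei WPt)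

universe u

variable {k : Type u} [Field k] [IsAlgClosed k] [Good k] {Q : Qua k}

section aux67

variable {K L M : Type u} [Field K] [Algebra k K] [Field L] [Algebra k L] [Field M] [Algebra k M]

private lemma cf_map67 (κ : L →ₐ[k] M) (u : Fin 2 → L) (i : Fin 5) :
    cf Q (fun s => κ (u s)) i = κ (cf Q u i) :=
  (MvPolynomial.comp_aeval_apply _ κ (Q.a i)).symm

private lemma dsc_map67 (κ : L →ₐ[k] M) (u : Fin 2 → L) :
    dsc (cf Q (fun s => κ (u s))) = κ (dsc (cf Q u)) := by
  simp only [dsc, bI, bJ, cf_map67, map_sub, map_mul, map_pow, map_add, map_ofNat]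

private lemma tw_map67 (κ : L →ₐ[k] M) (a' : Coord Q L) (a : Coord Q M)
    (hu : ∀ s, κ (a'.u s) = a.u s) (hx : ∀ s, κ (a'.x s) = a.x s) (hw : κ a'.w = a.w)
    (i : Fin 3) : tw a i = κ (tw a' i) := by
  have e : ∀ i, cf Q a.u i = κ (cf Q a'.u i) := by
    intro i
    rw [← cf_map67]
    congr 1
    funext s
    exact (hu s).symm
  fin_cases i
  · change 6 * g4 (cf Q a.u) a.x * a.w = κ (6 * g4 (cf Q a'.u) a'.x * a'.w)
    simp only [g4, e, ← hx, ← hw, map_sub, map_mul, map_pow, map_add, map_ofNat]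
  · change 27 * g6 (cf Q a.u) a.x = κ (27 * g6 (cf Q a'.u) a'.x)
    simp only [g6, e, ← hx, map_sub, map_mul, map_pow, map_add, map_ofNat]
  · change 8 * a.w ^ 3 = κ (8 * a'.w ^ 3)
    simp only [← hw, map_mul, map_pow, map_ofNat]

private lemma descend67 (κ : L →ₐ[k] M) (ι : K →ₐ[k] L) (b : Helper51.EW.Coord Q.wei K)
    (a : Coord Q M) (ha : tw a ≠ 0) {l c : M} (hl : l ≠ 0) (hc : c ≠ 0)
    (e1 : ∀ s, a.u s = l * κ (ι (b.u s)))
    (e2 : ∀ i, tw a i = l ^ Helper51.EW.wt Q.N i * c * κ (ι (b.w i)))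
    (u x : Fin 2 → L) (w l' c' : L) (hu : ∀ s, κ (u s) = a.u s) (hx : ∀ s, κ (x s) = a.x s)
    (hw : κ w = a.w) (hl' : κ l' = l) (hc' : κ c' = c) :
    ∃ P : QPt Q L, Over P (wmap ι (WPt.mk b)) := by
  have hinj : Function.Injective κ := κ.toRingHom.injective
  have hu0 : u ≠ 0 := by
    intro h0
    apply a.u_ne
    funext s
    rw [← hu, h0]
    exact map_zero κ
  have hx0 : x ≠ 0 := by
    intro h0
    apply a.x_ne
    funext s
    rw [← hx, h0]
    exact map_zero κ
  have heq : w ^ 2 = qu (cf Q u) x := by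
    apply hinj
    have e : ∀ i, cf Q a.u i = κ (cf Q u i) := by
      intro i
      rw [← cf_map67]
      congr 1
      funext s
      exact (hu s).symm
    have h1 := a.eqn
    simp only [qu, e, ← hx, ← hw] at h1
    simp only [qu, map_mul, map_pow, map_add]
    exact h1
  let a' : Coord Q L := ⟨u, x, w, hu0, hx0, heq⟩
  have htw : ∀ i, tw a i = κ (tw a' i) := tw_map67 κ a' a hu hx hw
  have htw0 : tw a' ≠ 0 := by
    intro h0
    apply ha
    funext i
    rw [htw, h0]
    exact map_zero κ
  refine ⟨QPt.mk a', ?_⟩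
  rw [over_mk]
  refine ⟨htw0, ?_⟩
  rw [wmap_mk, Helper51.EW.mk_eq_iff]
  refine ⟨l', c', ?_, ?_, fun s => ?_, fun i => ?_⟩
  · rintro rfl
    rw [map_zero] at hl'
    exact hl hl'.symm
  · rintro rfl
    rw [map_zero] at hc'
    exact hc hc'.symm
  · apply hinj
    change κ (u s) = κ (l' * ι (b.u s))
    rw [map_mul, hl', hu, e1]
  · apply hinj
    change κ (tw a' i) = κ (l' ^ Helper51.EW.wt Q.N i * c' * ι (b.w i))
    rw [map_mul, map_mul, map_pow, hl', hc', ← htw, e2]

end aux67

theorem exists_lifts {K : Type u} [Field K] [Algebra k K] (hK : IsFunctionField k K) {n : ℕ}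
    (j : Fin n → WPt Q.wei K) (hd : ∀ i, DW (j i)) :
    ∃ (L : Type u) (_ : Field L) (_ : Algebra k L) (_ : Algebra K L) (_ : IsScalarTower k K L)
      (_ : IsFunctionField k L) (P : Fin n → QPt Q L),
      ∀ i, Over (P i) (wmap (IsScalarTower.toAlgHom k K L) (j i)) := by
  classical
  have hK0 : Good K := Good.ext k
  have hM0 : Good (AlgebraicClosure K) := Good.ext K
  choose b hb hbd using hd
  let ι : K →ₐ[k] AlgebraicClosure K := IsScalarTower.toAlgHom k K (AlgebraicClosure K)
  have hDW : ∀ i, DW (WPt.mk (cmap ι (b i))) := by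
    intro i
    rw [dw_mk]
    have h1 : dsc (cf Q (cmap ι (b i)).u) = ι (dsc (cf Q (b i).u)) := dsc_map67 ι (b i).u
    rw [h1]
    exact (_root_.map_ne_zero ι).2 (hbd i)
  choose P hP using fun i => exists_over _ (hDW i)
  choose a ha using fun i => exists_mk (P i)
  have h1 : ∀ i, ∃ h : tw (a i) ≠ 0, WPt.mk (cmap ι (b i)) = WPt.mk (toC (a i) h) := by
    intro i
    have h2 := hP i
    rw [ha i, over_mk] at h2
    exact h2
  choose h hmk using h1
  choose l c hl hc e1 e2 using fun i => Helper51.EW.mk_eq_iff.mp (hmk i)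
  let S : Set (AlgebraicClosure K) :=
    ⋃ i, {(a i).u 0, (a i).u 1, (a i).x 0, (a i).x 1, (a i).w, l i, c i}
  have hS : Finite S := (Set.finite_iUnion fun i => Set.toFinite _).to_subtype
  let L : IntermediateField K (AlgebraicClosure K) := IntermediateField.adjoin K S
  have hfin : FiniteDimensional K L := by
    apply IntermediateField.finiteDimensional_adjoin
    intro x _
    exact (Algebra.IsAlgebraic.isAlgebraic x).isIntegral
  have hmem : ∀ i, ∀ z ∈ ({(a i).u 0, (a i).u 1, (a i).x 0, (a i).x 1, (a i).w, l i, c i} :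
      Set (AlgebraicClosure K)), z ∈ L := fun i z hz =>
    IntermediateField.subset_adjoin K S (Set.mem_iUnion.2 ⟨i, hz⟩)
  have hu : ∀ i s, (a i).u s ∈ L := by
    intro i s
    fin_cases s
    · exact hmem i _ (by simp)
    · exact hmem i _ (by simp)
  have hx : ∀ i s, (a i).x s ∈ L := by
    intro i s
    fin_cases s
    · exact hmem i _ (by simp)
    · exact hmem i _ (by simp)
  have hw : ∀ i, (a i).w ∈ L := fun i => hmem i _ (by simp)
  have hlL : ∀ i, l i ∈ L := fun i => hmem i _ (by simp)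
  have hcL : ∀ i, c i ∈ L := fun i => hmem i _ (by simp)
  have hL : IsFunctionField k L := ff_ext (F := K) hK
  let κ : L →ₐ[k] AlgebraicClosure K := L.val.restrictScalars k
  have key : ∀ i, ∃ P : QPt Q L,
      Over P (wmap (IsScalarTower.toAlgHom k K L) (WPt.mk (b i))) := by
    intro i
    refine descend67 κ (IsScalarTower.toAlgHom k K L) (b i) (a i) (h i) (hl i) (hc i)
      (fun s => e1 i s) (fun s => e2 i s) (fun s => ⟨(a i).u s, hu i s⟩)
      (fun s => ⟨(a i).x s, hx i s⟩) ⟨(a i).w, hw i⟩ ⟨l i, hlL i⟩ ⟨c i, hcL i⟩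
      (fun _ => rfl) (fun _ => rfl) rfl rfl rfl
  choose P' hP' using key
  refine ⟨L, inferInstance, inferInstance, inferInstance, inferInstance, hL, P', fun i => ?_⟩
  rw [hb i]
  exact hP' i

end Pool.Agent.Helper83.QF

end CX
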