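import Mathlib
import Pool.Agent.Helper9.NS
import Pool.Agent.Helper40.CX.H83QF.Pt
import Pool.Agent.Helper40.CX.H83QF.Exi
import Pool.Agent.Helper40.CX.Good2

namespace CX

/-!
# Block OVV: values of points over points of the Jacobian fibration
Proof. Choose adapted coordinates `a` of `P` at `v`, with residues `b` (`exists_coords`), so
`Q.surface.eval hK P v = mk b`. By `over_mk`, `j = mk (toC a h)`. The residues of `tw a` are `tw b`
(polynomials: `isRes_cf`, `IsRes.mul` ...).
`over_val`: `dsc (cf Q b.u) ≠ 0` by `dq_mk`. Then `tw b ≠ 0`: if `b.w ≠ 0` because of `8 b.w ^ 3`; if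
`b.w = 0` then `qu = 0`, so `g4 ≠ 0` by `dsc_zero`, and `g6 ≠ 0` by `syz`. So the coordinates
`toC a` of `j` have the residues `toC b`, `EW.eval_eq`.
`base_val`: `EW.eval_base` gives `b'` with `b'.u = b.u` and `eval j v = mk b'`; `dw_mk`, `dq_mk`.
-/

set_option linter.unusedSectionVars false

namespace Pool.Agent.Helper83.QF

open VC VF Function
open Pool.Agent.Helper51.EW (Wei WPt)

universe u

variable {k : Type u} [Field k] [IsAlgClosed k] [Good k] {Q : Qua k}

private lemma h31_aeval {K : Type u} [Field K] [Algebra k K] {v : Place k K} {σ : Type*} {u : σ → K}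
    {r : σ → k} (h : ∀ i, IsRes v (u i) (r i)) (F : MvPolynomial σ k) :
    IsRes v (MvPolynomial.aeval u F) (MvPolynomial.aeval r F) := by
  induction F using MvPolynomial.induction_on with
  | C a =>
    rw [MvPolynomial.algHom_C, MvPolynomial.algHom_C]
    exact isRes_const a
  | add p q hp hq => rw [map_add, map_add]; exact hp.add hq
  | mul_X p i hp =>
    rw [map_mul, map_mul, MvPolynomial.aeval_X, MvPolynomial.aeval_X]
    exact hp.mul (h i)

private lemma h31_g4 {K : Type u} [Field K] [Algebra k K] {v : Place k K} {c : Fin 5 → K}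
    {d : Fin 5 → k} (hc : ∀ i, IsRes v (c i) (d i)) {x : Fin 2 → K} {y : Fin 2 → k}
    (hx : ∀ i, IsRes v (x i) (y i)) : IsRes v (6 * g4 c x) (6 * g4 d y) := by
  have h := h31_aeval (v := v) (u := Sum.elim c x) (r := Sum.elim d y)
    (by rintro (i | i); exacts [hc i, hx i])
    (6 * g4 (fun i => MvPolynomial.X (Sum.inl i)) (fun i => MvPolynomial.X (Sum.inr i)))
  simpa only [g4, map_mul, map_add, map_sub, map_pow, map_ofNat, MvPolynomial.aeval_X, Sum.elim_inl,
    Sum.elim_inr] using h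

private lemma h31_g6 {K : Type u} [Field K] [Algebra k K] {v : Place k K} {c : Fin 5 → K}
    {d : Fin 5 → k} (hc : ∀ i, IsRes v (c i) (d i)) {x : Fin 2 → K} {y : Fin 2 → k}
    (hx : ∀ i, IsRes v (x i) (y i)) : IsRes v (27 * g6 c x) (27 * g6 d y) := by
  have h := h31_aeval (v := v) (u := Sum.elim c x) (r := Sum.elim d y)
    (by rintro (i | i); exacts [hc i, hx i])
    (27 * g6 (fun i => MvPolynomial.X (Sum.inl i)) (fun i => MvPolynomial.X (Sum.inr i)))
  simpa only [g6, map_mul, map_add, map_sub, map_pow, map_ofNat, MvPolynomial.aeval_X, Sum.elim_inl,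
    Sum.elim_inr] using h

private lemma h31_w {K : Type u} [Field K] [Algebra k K] {v : Place k K} {w : K} {m : k}
    (hw : IsRes v w m) : IsRes v (8 * w ^ 3) (8 * m ^ 3) := by
  have h := h31_aeval (v := v) (u := fun _ : Unit => w) (r := fun _ : Unit => m) (fun _ => hw)
    (8 * MvPolynomial.X () ^ 3)
  simpa only [map_mul, map_pow, map_ofNat, MvPolynomial.aeval_X] using h

private lemma h31_tw {K : Type u} [Field K] [Algebra k K] {v : Place k K} {a : Coord Q K}
    {b : Coord Q k} (hu : ∀ i, IsRes v (a.u i) (b.u i)) (hx : ∀ i, IsRes v (a.x i) (b.x i))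
    (hw : IsRes v a.w b.w) (i : Fin 3) : IsRes v (tw a i) (tw b i) := by
  have h4 := (h31_g4 (isRes_cf (Q := Q) hu) hx).mul hw
  have h6 := h31_g6 (isRes_cf (Q := Q) hu) hx
  have h8 := h31_w hw
  fin_cases i
  · exact h4
  · exact h6
  · exact h8

private lemma h31_tw_ne {K : Type u} [Field K] [Algebra k K] [Good K] (a : Coord Q K)
    (hd : dsc (cf Q a.u) ≠ 0) : tw a ≠ 0 := by
  intro h0
  have h2 : 8 * a.w ^ 3 = 0 := congrFun h0 2
  have h1 : 27 * g6 (cf Q a.u) a.x = 0 := congrFun h0 1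
  have hw : a.w = 0 := by
    rcases mul_eq_zero.1 h2 with h | h
    · norm_num at h
    · exact (pow_eq_zero_iff (by norm_num)).1 h
  have hq : qu (cf Q a.u) a.x = 0 := by
    rw [← a.eqn, hw]
    norm_num
  have h6 : g6 (cf Q a.u) a.x = 0 := by
    rcases mul_eq_zero.1 h1 with h | h
    · norm_num at h
    · exact h
  have hs := syz (cf Q a.u) a.x
  rw [hq, h6] at hs
  have h4 : g4 (cf Q a.u) a.x = 0 := by
    have : g4 (cf Q a.u) a.x ^ 3 = 0 := by linear_combination -hs
    exact (pow_eq_zero_iff (by norm_num)).1 this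
  exact hd (dsc_zero (cf Q a.u) a.x a.x_ne hq h4)

/-- Every point of a smooth fibre lies over a point of the Jacobian fibration. -/
theorem over_of_dq {K : Type u} [Field K] [Algebra k K] [Good K] {P : QPt Q K} (h : DQ P) :
    ∃ j : WPt Q.wei K, Over P j := by
  obtain ⟨a, rfl, hd⟩ := h
  exact ⟨WPt.mk (toC a (h31_tw_ne a hd)), a, h31_tw_ne a hd, rfl, rfl⟩

theorem over_val {K : Type u} [Field K] [Algebra k K] (hK : IsFunctionField k K)
    (v : Place k K) {P : QPt Q K} {j : WPt Q.wei K} (h : Over P j)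
    (hd : DQ (Q.surface.eval hK P v)) :
    Over (Q.surface.eval hK P v) (Q.wei.surface.eval hK j v) := by
  obtain ⟨a, b, rfl, h2, hu, hx, hw⟩ := exists_coords hK v P
  rw [h2] at hd ⊢
  rw [dq_mk] at hd
  obtain ⟨ha, rfl⟩ := over_mk.1 h
  have hb := h31_tw_ne b hd
  rw [Helper51.EW.eval_eq hK v (toC a ha) (toC b hb) hu (h31_tw hu hx hw)]
  exact ⟨b, hb, rfl, rfl⟩

theorem base_val {K : Type u} [Field K] [Algebra k K] (hK : IsFunctionField k K)
    (v : Place k K) {P : QPt Q K} {j : WPt Q.wei K} (h : Over P j) :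
    DW (Q.wei.surface.eval hK j v) ↔ DQ (Q.surface.eval hK P v) := by
  obtain ⟨a, b, rfl, h2, hu, hx, hw⟩ := exists_coords hK v P
  obtain ⟨ha, rfl⟩ := over_mk.1 h
  obtain ⟨b', hb', he⟩ := Helper51.EW.eval_base hK v (toC a ha) b.u_ne hu
  rw [h2, he, dw_mk, dq_mk, hb']

end Pool.Agent.Helper83.QF

end CX
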