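import Mathlib
import Pool.Agent.Helper9.NS
import Pool.Agent.Helper40.CX.H83KV.FF
import Pool.Agent.Helper40.CX.H83QF.Pt
import Pool.Agent.Helper40.CX.Good2

namespace CX

/-!
# Block PTH: two points of a fibre
If on the fibre over `r` the quartic is `α ^ 2 + κ [x, p] ^ 2 [x, q] ^ 2`, `[x, p] = x 0 * p 1 -
x 1 * p 0`, with a quadratic form `α`, then a function which vanishes on the cycles rationally
equivalent to zero has the same value at `(p, α p)` and `(q, - α q)`: the function
`h = (w - α x) / [x, q] ^ 2` on the curve `w ^ 2 = qu x` has divisor `2 (p, α p) - 2 (q, - α q)`,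
`(w - α) (w + α) = κ [x, p] ^ 2 [x, q] ^ 2`.
Proof. The identity `hid` for all `x` in `k ^ 2` gives the equality of the five coefficients
(evaluate at `(1, 0)`, `(0, 1)`, `(1, 1)`, `(1, -1)`, `(1, 2)`), so it holds in every field over `k`.
Let `t` be transcendental, `K ∋ t, w` a function field with `w ^ 2 = qu c (t, 1)`
(`KV.exists_ff`); `x = (t, 1)`, K-point `P = qpt Q r x w` (constant `r`), `h = (w - α x) / [x, q] ^ 2`
(`[x, q] ≠ 0` as `t` is transcendental). `h ≠ 0` and `h` is not constant: there is a place `v0` with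
`x` having residue proportional to `p` (`t - p 0 / p 1` has a zero, resp. `1 / t` if `p 1 = 0`;
`VP`/`FF`: every transcendental element has a zero); at `v0` the residue of the adapted `w` is
`± α p`; replacing `w` by `- w` at the beginning it is `α p`, then `h` has a zero at `v0`. Since `h ≠ 0`
(otherwise `κ [x, p] ^ 2 [x, q] ^ 2 = 0`), `h` is transcendental. Now `path` for
`τ = h / (h - 1)` (or `Kills.gen` for `h` and `degree_zero`): at every zero of `h` the value of `P` is
`qpt Q r p wp`, at every pole it is `qpt Q r q wq`: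
choose adapted coordinates at `v`: `P = mk a`, `a.u` constant up to a scalar, `a.x = s x`,
`a.w = s ^ 2 w` (scaling), residues `ξ ≠ 0`, `ω`, `ω ^ 2 = qu c ξ = α(ξ) ^ 2 + κ [ξ,p]^2 [ξ,q]^2`, and
`h = (a.w - α a.x) / [a.x, q] ^ 2 = κ [a.x, p] ^ 2 / (a.w + α a.x)`.
Zero of `h`: if `[ξ, q] ≠ 0` then `ω = α ξ`, so `[ξ, p] = 0`, `ξ = λ p`, `ω = λ ^ 2 α p`: the value is
`(p, α p)` (`qpt_smul`). If `[ξ, q] = 0` and `[ξ, p] ≠ 0`: `ω = ± α ξ ≠ 0`, `h = κ [a.x, p] ^ 2 /
(a.w + α a.x)` has no zero, contradiction. If `[ξ, q] = [ξ, p] = 0`: `ω = ± α ξ`, `α ξ ≠ 0`; if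
`ω = α ξ` the value is `(p, α p)`; if `ω = - α ξ`, `a.w - α a.x` has nonzero residue, `h` has no zero.
Poles: the same with `p` and `q` exchanged, `1/h = (a.w + α a.x) / (κ [a.x, p] ^ 2) =
[a.x, q] ^ 2 / (a.w - α a.x)`.
-/

set_option linter.unusedSectionVars false

namespace Pool.Agent.Helper83.QF

open VC VF Function

universe u

variable {k : Type u} [Field k] [IsAlgClosed k] [Good k] {Q : Qua k}

namespace Pth

/-- Proportional vectors. -/
lemma exists_smul {p ξ : Fin 2 → k} (hp : p ≠ 0) (hξ : ξ ≠ 0)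
    (h : ξ 0 * p 1 - ξ 1 * p 0 = 0) : ∃ l : k, l ≠ 0 ∧ ξ = fun i => l * p i := by
  by_cases h0 : p 0 = 0
  · have h1 : p 1 ≠ 0 := by
      intro h1
      apply hp
      funext i
      fin_cases i
      · exact h0
      · exact h1
    have h2 : ξ 0 = 0 := by
      rw [h0, mul_zero, sub_zero] at h
      exact (mul_eq_zero.mp h).resolve_right h1
    refine ⟨ξ 1 / p 1, ?_, ?_⟩
    · intro h3
      apply hξ
      funext i
      fin_cases i
      · exact h2
      · exact (div_eq_zero_iff.mp h3).resolve_right h1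
    · funext i
      fin_cases i
      · change ξ 0 = ξ 1 / p 1 * p 0
        rw [h2, h0, mul_zero]
      · change ξ 1 = ξ 1 / p 1 * p 1
        rw [div_mul_cancel₀ _ h1]
  · refine ⟨ξ 0 / p 0, ?_, ?_⟩
    · intro h3
      apply hξ
      have h2 : ξ 0 = 0 := (div_eq_zero_iff.mp h3).resolve_right h0
      rw [h2, zero_mul, zero_sub, neg_eq_zero] at h
      funext i
      fin_cases i
      · exact h2
      · exact (mul_eq_zero.mp h).resolve_right h0
    · funext i
      fin_cases i
      · change ξ 0 = ξ 0 / p 0 * p 0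
        rw [div_mul_cancel₀ _ h0]
      · change ξ 1 = ξ 0 / p 0 * p 1
        field_simp
        linear_combination -h

/-- If the function takes the value `A` at the zeros of `h` and the value `B` at the poles of `h`,
then `A = B`. -/
lemma path_inf {X : Variety k} {ψ : X.Pt → ℂ} (hψ : Kills X ψ) {K : Type u} [Field K]
    [Algebra k K] (hK : IsFunctionField k K) (c : X.Mor K) {h : K} (hh : Transcendental k h)
    {A B : ℂ} (hA : ∀ v : Place k K, h ∈ v.ring.nonunits → ψ (X.eval hK c v) = A)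
    (hB : ∀ v : Place k K, h⁻¹ ∈ v.ring.nonunits → ψ (X.eval hK c v) = B) : A = B := by
  have h0 : h ≠ 0 := by
    rintro rfl
    exact hh (isAlgebraic_zero)
  have h1 : h - 1 ≠ 0 := by
    intro h1
    apply hh
    rw [sub_eq_zero.mp h1]
    exact isAlgebraic_one
  have hτ : Transcendental k (h / (h - 1)) := by
    intro h2
    apply hh
    have h3 : h / (h - 1) - 1 ≠ 0 := by
      intro h4
      rw [sub_eq_zero, div_eq_one_iff_eq h1] at h4
      have h5 : (1 : K) = 0 := by linear_combination h4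
      exact one_ne_zero h5
    have h4 : h = h / (h - 1) / (h / (h - 1) - 1) := by
      rw [eq_div_iff h3]
      field_simp
      ring
    rw [h4, div_eq_mul_inv]
    exact h2.mul (h2.sub isAlgebraic_one).inv
  refine path hψ hK c hτ (a := 0) (b := 1) zero_ne_one ?_ ?_
  · intro v hv
    apply hA v
    have h2 : IsRes v (h / (h - 1) - 1) (-1 : k) := by
      have h3 := hv.sub (isRes_one (v := v))
      rwa [zero_sub] at h3
    have h3 := h2.inv_mem (neg_ne_zero.mpr one_ne_zero)
    have h4 : h = (h / (h - 1) - 1)⁻¹ * (h / (h - 1)) := by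
      have h5 := h3.1
      rw [inv_mul_eq_div, eq_div_iff h5]
      field_simp
      ring
    rw [h4]
    exact nonunits_mul h3.2 (isRes_zero_iff.mp hv)
  · intro v hv
    apply hB v
    have h3 := hv.inv_mem one_ne_zero
    have h2 : IsRes v (h / (h - 1) - 1) (0 : k) := by
      have h4 := hv.sub (isRes_one (v := v))
      rwa [sub_self] at h4
    have h4 : h⁻¹ = (h / (h - 1))⁻¹ * (h / (h - 1) - 1) := by
      have h5 := h3.1
      rw [inv_mul_eq_div, eq_div_iff h5]
      field_simp
      ring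
    rw [h4]
    exact nonunits_mul h3.2 (isRes_zero_iff.mp h2)

/-- Adapted coordinates on a fibre. -/
lemma coords {K : Type u} [Field K] [Algebra k K] (hK : IsFunctionField k K) (v : Place k K)
    {r : Fin 2 → k} (hr : r ≠ 0) {x : Fin 2 → K} (hx : x ≠ 0) {w : K}
    (h : w ^ 2 = qu (cf Q (fun i => algebraMap k K (r i))) x) :
    ∃ (s : K) (ξ : Fin 2 → k) (ω : k), s ≠ 0 ∧ ξ ≠ 0 ∧ (∀ i, IsRes v (s * x i) (ξ i)) ∧
      IsRes v (s ^ 2 * w) ω ∧
      Q.surface.eval hK (qpt Q (fun i => algebraMap k K (r i)) x w) v = qpt Q r ξ ω := by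
  obtain ⟨j, hj, hj'⟩ := exists_max v.ring x hx
  have hs : (x j)⁻¹ ≠ 0 := inv_ne_zero hj
  choose ξ hξ using fun i => exists_res hK (hj' i)
  have hξj : ξ j = 1 := by
    have h1 := hξ j
    rw [mul_inv_cancel₀ hj] at h1
    exact h1.unique isRes_one
  have hξ0 : ξ ≠ 0 := by
    intro h0
    rw [h0] at hξj
    exact zero_ne_one hξj
  have hu : (fun i => algebraMap k K (r i)) ≠ 0 := by
    obtain ⟨l, hl⟩ := Function.ne_iff.mp hr
    intro h0
    exact hl ((_root_.map_eq_zero _).mp (congrFun h0 l))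
  have hξ' : ∀ i, IsRes v ((x j)⁻¹ * x i) (ξ i) := by
    intro i
    rw [mul_comm]
    exact hξ i
  have h2 : ((x j)⁻¹ ^ 2 * w) ^ 2 =
      qu (cf Q (fun i => algebraMap k K (r i))) (fun i => (x j)⁻¹ * x i) := by
    rw [qu_smul, ← h]
    ring
  have h3 : IsRes v (((x j)⁻¹ ^ 2 * w) ^ 2) (qu (cf Q r) ξ) := by
    rw [h2]
    exact isRes_qu (isRes_cf fun i => isRes_const _) hξ'
  obtain ⟨ω, hω, -⟩ := exists_res_of_pow hK two_ne_zero h3
  refine ⟨(x j)⁻¹, ξ, ω, hs, hξ0, hξ', hω, ?_⟩
  rw [← qpt_smul hu hx hs h]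
  exact eval_qpt hK v h2 hr hξ0 (fun i => isRes_const _) hξ' hω

end Pth

theorem two_pts {ψ : Q.surface.Pt → ℂ} (h : Kills Q.surface ψ) {r p q : Fin 2 → k} (hr : r ≠ 0)
    (hp : p ≠ 0) (hq : q ≠ 0) {α₀ α₁ α₂ κ wp wq : k} (hκ : κ ≠ 0) (hwp : wp ≠ 0) (hwq : wq ≠ 0)
    (hid : ∀ x : Fin 2 → k, qu (cf Q r) x =
      (α₀ * x 0 ^ 2 + α₁ * x 0 * x 1 + α₂ * x 1 ^ 2) ^ 2 +
        κ * (x 0 * p 1 - x 1 * p 0) ^ 2 * (x 0 * q 1 - x 1 * q 0) ^ 2)
    (h1 : α₀ * p 0 ^ 2 + α₁ * p 0 * p 1 + α₂ * p 1 ^ 2 = wp)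
    (h2 : α₀ * q 0 ^ 2 + α₁ * q 0 * q 1 + α₂ * q 1 ^ 2 = -wq) :
    ψ (qpt Q r p wp) = ψ (qpt Q r q wq) := by
  classical
  -- a vector not proportional to p
  obtain ⟨p', hp'⟩ : ∃ p' : Fin 2 → k, p' 0 * p 1 - p' 1 * p 0 ≠ 0 := by
    by_cases h0 : p 1 = 0
    · refine ⟨![0, 1], ?_⟩
      have h3 : p 0 ≠ 0 := by
        intro h3
        apply hp
        funext i
        fin_cases i
        · exact h3
        · exact h0
      simpa using h3
    · exact ⟨![1, 0], by simpa using h0⟩
  -- the field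
  obtain ⟨wO, hwO⟩ := IsAlgClosed.exists_pow_nat_eq
    (qu (fun i => algebraMap k (KV.Om k) (cf Q r i))
      (fun i => algebraMap k (KV.Om k) (p i) + KV.zO k * algebraMap k (KV.Om k) (p' i))) (n := 2)
      (by norm_num)
  obtain ⟨K, _, _, ι, t, b, hK, htr, hιt, hb⟩ := KV.exists_ff ![wO]
  have hw0 : b 0 ^ 2 = qu (fun i => algebraMap k K (cf Q r i))
      (fun i => algebraMap k K (p i) + t * algebraMap k K (p' i)) := by
    apply ι.toRingHom.injective
    change ι _ = ι _
    have h3 : ι (b 0) = wO := hb 0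
    rw [map_pow, h3, hwO]
    simp only [qu, map_add, map_mul, map_pow, AlgHom.commutes, hιt]
  have : Good K := Good.ext k
  -- the identity in `K`
  have hidK : qu (fun i => algebraMap k K (cf Q r i))
      (fun i => algebraMap k K (p i) + t * algebraMap k K (p' i)) =
      (algebraMap k K α₀ * (algebraMap k K (p 0) + t * algebraMap k K (p' 0)) ^ 2 +
        algebraMap k K α₁ * (algebraMap k K (p 0) + t * algebraMap k K (p' 0)) *
          (algebraMap k K (p 1) + t * algebraMap k K (p' 1)) +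
        algebraMap k K α₂ * (algebraMap k K (p 1) + t * algebraMap k K (p' 1)) ^ 2) ^ 2 +
      algebraMap k K κ *
        ((algebraMap k K (p 0) + t * algebraMap k K (p' 0)) * algebraMap k K (p 1) -
          (algebraMap k K (p 1) + t * algebraMap k K (p' 1)) * algebraMap k K (p 0)) ^ 2 *
        ((algebraMap k K (p 0) + t * algebraMap k K (p' 0)) * algebraMap k K (q 1) -
          (algebraMap k K (p 1) + t * algebraMap k K (p' 1)) * algebraMap k K (q 0)) ^ 2 := by
    have hpoly : qu (fun i => Polynomial.C (cf Q r i))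
        (fun i => Polynomial.C (p i) + Polynomial.X * Polynomial.C (p' i)) =
        (Polynomial.C α₀ * (Polynomial.C (p 0) + Polynomial.X * Polynomial.C (p' 0)) ^ 2 +
          Polynomial.C α₁ * (Polynomial.C (p 0) + Polynomial.X * Polynomial.C (p' 0)) *
            (Polynomial.C (p 1) + Polynomial.X * Polynomial.C (p' 1)) +
          Polynomial.C α₂ * (Polynomial.C (p 1) + Polynomial.X * Polynomial.C (p' 1)) ^ 2) ^ 2 +
        Polynomial.C κ *
          ((Polynomial.C (p 0) + Polynomial.X * Polynomial.C (p' 0)) * Polynomial.C (p 1) -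
            (Polynomial.C (p 1) + Polynomial.X * Polynomial.C (p' 1)) * Polynomial.C (p 0)) ^ 2 *
          ((Polynomial.C (p 0) + Polynomial.X * Polynomial.C (p' 0)) * Polynomial.C (q 1) -
            (Polynomial.C (p 1) + Polynomial.X * Polynomial.C (p' 1)) *
              Polynomial.C (q 0)) ^ 2 := by
      apply Polynomial.funext
      intro a
      have h3 := hid (fun i => p i + a * p' i)
      simp only [qu, Polynomial.eval_add, Polynomial.eval_sub, Polynomial.eval_mul,
        Polynomial.eval_pow, Polynomial.eval_C, Polynomial.eval_X] at h3 ⊢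
      exact h3
    have h3 := congrArg (Polynomial.aeval t) hpoly
    simp only [qu, map_add, map_sub, map_mul, map_pow, Polynomial.aeval_C,
      Polynomial.aeval_X] at h3
    simp only [qu]
    exact h3
  set x : Fin 2 → K := fun i => algebraMap k K (p i) + t * algebraMap k K (p' i) with hxdef
  have hx0 : x 0 = algebraMap k K (p 0) + t * algebraMap k K (p' 0) := rfl
  have hx1 : x 1 = algebraMap k K (p 1) + t * algebraMap k K (p' 1) := rfl
  rw [← hx0, ← hx1] at hidK
  have hcf : ∀ i, cf Q (fun i => algebraMap k K (r i)) i = algebraMap k K (cf Q r i) := by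
    intro i
    exact MvPolynomial.aeval_algebraMap_apply K r (Q.a i)
  have hcf' : cf Q (fun i => algebraMap k K (r i)) = fun i => algebraMap k K (cf Q r i) :=
    funext hcf
  -- the brackets
  have ht0 : t ≠ 0 := by
    rintro rfl
    exact htr isAlgebraic_zero
  have hxp : x 0 * algebraMap k K (p 1) - x 1 * algebraMap k K (p 0) =
      t * algebraMap k K (p' 0 * p 1 - p' 1 * p 0) := by
    rw [hx0, hx1]
    simp only [map_sub, map_mul]
    ring
  have hxp0 : x 0 * algebraMap k K (p 1) - x 1 * algebraMap k K (p 0) ≠ 0 := by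
    rw [hxp]
    refine mul_ne_zero ht0 ?_
    rw [Ne, _root_.map_eq_zero]
    exact hp'
  have hxq0 : x 0 * algebraMap k K (q 1) - x 1 * algebraMap k K (q 0) ≠ 0 := by
    intro h0
    have h3 : algebraMap k K (p 0 * q 1 - p 1 * q 0) +
        t * algebraMap k K (p' 0 * q 1 - p' 1 * q 0) = 0 := by
      rw [hx0, hx1] at h0
      simp only [map_sub, map_mul]
      linear_combination h0
    have h4 : p' 0 * q 1 - p' 1 * q 0 = 0 := by
      by_contra h4
      apply htr
      have h5 : t = algebraMap k K (-(p 0 * q 1 - p 1 * q 0) / (p' 0 * q 1 - p' 1 * q 0)) := by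
        have h6 : algebraMap k K (p' 0 * q 1 - p' 1 * q 0) ≠ 0 := by
          rw [Ne, _root_.map_eq_zero]
          exact h4
        rw [map_div₀, map_neg, eq_div_iff h6]
        linear_combination h3
      rw [h5]
      exact isAlgebraic_algebraMap _
    rw [h4, map_zero, mul_zero, add_zero, _root_.map_eq_zero] at h3
    apply hq
    have h5 : q 1 * (p' 0 * p 1 - p' 1 * p 0) = 0 := by linear_combination p 1 * h4 - p' 1 * h3
    have h6 : q 0 * (p' 0 * p 1 - p' 1 * p 0) = 0 := by linear_combination p 0 * h4 - p' 0 * h3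
    funext i
    fin_cases i
    · exact (mul_eq_zero.mp h6).resolve_right hp'
    · exact (mul_eq_zero.mp h5).resolve_right hp'
  have hxne : x ≠ 0 := by
    intro h0
    apply hxp0
    rw [h0]
    simp
  -- the place over `p`
  obtain ⟨v0, hv0⟩ := exists_place hK htr
  have hv0' : IsRes v0 t 0 := isRes_zero_iff.mpr hv0
  have hxres : ∀ i, IsRes v0 (x i) (p i) := by
    intro i
    have h3 := (isRes_const (v := v0) (p i)).add (hv0'.mul (isRes_const (v := v0) (p' i)))
    rw [zero_mul, add_zero] at h3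
    exact h3
  have hqp : qu (cf Q r) p = wp ^ 2 := by
    rw [hid p, h1]
    ring
  obtain ⟨w, hw, hwres⟩ : ∃ w : K, w ^ 2 = qu (fun i => algebraMap k K (cf Q r i)) x ∧
      IsRes v0 w wp := by
    have h3 : IsRes v0 (b 0 ^ 2) (qu (cf Q r) p) := by
      rw [hw0]
      exact isRes_qu (fun i => isRes_const _) hxres
    obtain ⟨ω, hω, hω2⟩ := exists_res_of_pow hK two_ne_zero h3
    rw [hqp] at hω2
    rcases sq_eq_sq_iff_eq_or_eq_neg.mp hω2 with h4 | h4
    · rw [h4] at hω
      exact ⟨b 0, hw0, hω⟩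
    · refine ⟨-b 0, by rw [neg_sq]; exact hw0, ?_⟩
      have h5 := hω.neg
      rw [h4, neg_neg] at h5
      exact h5
  rw [hidK] at hw
  set α : K := algebraMap k K α₀ * x 0 ^ 2 + algebraMap k K α₁ * x 0 * x 1 +
    algebraMap k K α₂ * x 1 ^ 2 with hα
  set bp : K := x 0 * algebraMap k K (p 1) - x 1 * algebraMap k K (p 0) with hbp
  set bq : K := x 0 * algebraMap k K (q 1) - x 1 * algebraMap k K (q 0) with hbq
  have hκK : algebraMap k K κ ≠ 0 := by
    rw [Ne, _root_.map_eq_zero]
    exact hκ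
  have hprod : (w - α) * (w + α) = algebraMap k K κ * bp ^ 2 * bq ^ 2 := by
    linear_combination hw
  have hprod0 : (w - α) * (w + α) ≠ 0 := by
    rw [hprod]
    exact mul_ne_zero (mul_ne_zero hκK (pow_ne_zero _ hxp0)) (pow_ne_zero _ hxq0)
  have hwm : w - α ≠ 0 := left_ne_zero_of_mul hprod0
  have hwp' : w + α ≠ 0 := right_ne_zero_of_mul hprod0
  have hbq2 : bq ^ 2 ≠ 0 := pow_ne_zero _ hxq0
  set hf : K := (w - α) / bq ^ 2 with hhf
  have e1 : hf * bq ^ 2 = w - α := div_mul_cancel₀ _ hbq2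
  have e2 : hf * (w + α) = algebraMap k K κ * bp ^ 2 := by
    rw [hhf, div_mul_eq_mul_div, hprod, div_eq_iff hbq2]
  have hf0 : hf ≠ 0 := div_ne_zero hwm hbq2
  have hαres : IsRes v0 α wp := by
    have h3 := (((isRes_const (v := v0) α₀).mul ((hxres 0).pow 2)).add
      (((isRes_const (v := v0) α₁).mul (hxres 0)).mul (hxres 1))).add
      ((isRes_const (v := v0) α₂).mul ((hxres 1).pow 2))
    rw [h1] at h3
    exact h3
  have hfv0 : hf ∈ v0.ring.nonunits := by
    have h3 : IsRes v0 (w + α) (wp + wp) := hwres.add hαres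
    have h4 := h3.inv_mem (by
      rw [← two_mul]
      exact mul_ne_zero two_ne_zero hwp)
    have h5 : IsRes v0 bp 0 := by
      have h6 := ((hxres 0).mul (isRes_const (v := v0) (p 1))).sub
        ((hxres 1).mul (isRes_const (v := v0) (p 0)))
      rw [mul_comm (p 0), sub_self] at h6
      exact h6
    have h6 : hf = (w + α)⁻¹ * (algebraMap k K κ * bp ^ 2) := by
      rw [← e2]
      field_simp
    have h7 := (isRes_const (v := v0) κ).mul (h5.pow 2)
    rw [zero_pow two_ne_zero, mul_zero, isRes_zero_iff] at h7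
    rw [h6]
    exact nonunits_mul h4.2 h7
  have hftr : Transcendental k hf := by
    intro h3
    have h4 : (minpoly k hf).degree = 1 :=
      IsAlgClosed.degree_eq_one_of_irreducible k (minpoly.irreducible h3.isIntegral)
    obtain ⟨c, hc⟩ := minpoly.mem_range_of_degree_eq_one k hf h4
    have h5 : IsRes v0 hf c := by
      rw [← hc]
      exact isRes_const c
    have h6 := h5.unique (isRes_zero_iff.mpr hfv0)
    rw [h6, map_zero] at hc
    exact hf0 hc.symm
  have huw : w ^ 2 = qu (cf Q (fun i => algebraMap k K (r i))) x := by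
    rw [hcf', hidK]
    exact hw
  refine Pth.path_inf h hK (qpt Q (fun i => algebraMap k K (r i)) x w) hftr ?_ ?_
  · intro v hv
    obtain ⟨s, ξ, ω, hs, hξ, hξr, hωr, hev⟩ := Pth.coords hK v hr hxne huw
    rw [hev]
    have hv' : IsRes v hf 0 := isRes_zero_iff.mpr hv
    have hαr : IsRes v (s ^ 2 * α) (α₀ * ξ 0 ^ 2 + α₁ * ξ 0 * ξ 1 + α₂ * ξ 1 ^ 2) := by
      have h3 := (((isRes_const (v := v) α₀).mul ((hξr 0).pow 2)).add
        (((isRes_const (v := v) α₁).mul (hξr 0)).mul (hξr 1))).add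
        ((isRes_const (v := v) α₂).mul ((hξr 1).pow 2))
      convert h3 using 1
      rw [hα]
      ring
    have hbpr : IsRes v (s * bp) (ξ 0 * p 1 - ξ 1 * p 0) := by
      have h3 := ((hξr 0).mul (isRes_const (v := v) (p 1))).sub
        ((hξr 1).mul (isRes_const (v := v) (p 0)))
      convert h3 using 1
      rw [hbp]
      ring
    have hbqr : IsRes v (s * bq) (ξ 0 * q 1 - ξ 1 * q 0) := by
      have h3 := ((hξr 0).mul (isRes_const (v := v) (q 1))).sub
        ((hξr 1).mul (isRes_const (v := v) (q 0)))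
      convert h3 using 1
      rw [hbq]
      ring
    have h3 : ω - (α₀ * ξ 0 ^ 2 + α₁ * ξ 0 * ξ 1 + α₂ * ξ 1 ^ 2) = 0 := by
      have h4 := hωr.sub hαr
      have h5 := hv'.mul (hbqr.pow 2)
      rw [zero_mul] at h5
      have h6 : hf * (s * bq) ^ 2 = s ^ 2 * w - s ^ 2 * α := by linear_combination s ^ 2 * e1
      rw [h6] at h5
      exact h4.unique h5
    have h7 : ξ 0 * p 1 - ξ 1 * p 0 = 0 := by
      have h4 := hv'.mul (hωr.add hαr)
      rw [zero_mul] at h4
      have h5 := (isRes_const (v := v) κ).mul (hbpr.pow 2)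
      have h6 : hf * (s ^ 2 * w + s ^ 2 * α) = algebraMap k K κ * (s * bp) ^ 2 := by
        linear_combination s ^ 2 * e2
      rw [h6] at h4
      have h8 := h5.unique h4
      have h9 := (mul_eq_zero.mp h8).resolve_left hκ
      exact (pow_eq_zero_iff two_ne_zero).mp h9
    obtain ⟨l, hl, rfl⟩ := Pth.exists_smul hp hξ h7
    have h8 : ω = l ^ 2 * wp := by
      rw [← h1]
      linear_combination h3
    rw [h8, qpt_smul hr hp hl hqp.symm]
  · intro v hv
    obtain ⟨s, ξ, ω, hs, hξ, hξr, hωr, hev⟩ := Pth.coords hK v hr hxne huw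
    rw [hev]
    have hv' : IsRes v hf⁻¹ 0 := isRes_zero_iff.mpr hv
    have hαr : IsRes v (s ^ 2 * α) (α₀ * ξ 0 ^ 2 + α₁ * ξ 0 * ξ 1 + α₂ * ξ 1 ^ 2) := by
      have h3 := (((isRes_const (v := v) α₀).mul ((hξr 0).pow 2)).add
        (((isRes_const (v := v) α₁).mul (hξr 0)).mul (hξr 1))).add
        ((isRes_const (v := v) α₂).mul ((hξr 1).pow 2))
      convert h3 using 1
      rw [hα]
      ring
    have hbpr : IsRes v (s * bp) (ξ 0 * p 1 - ξ 1 * p 0) := by
      have h3 := ((hξr 0).mul (isRes_const (v := v) (p 1))).sub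
        ((hξr 1).mul (isRes_const (v := v) (p 0)))
      convert h3 using 1
      rw [hbp]
      ring
    have hbqr : IsRes v (s * bq) (ξ 0 * q 1 - ξ 1 * q 0) := by
      have h3 := ((hξr 0).mul (isRes_const (v := v) (q 1))).sub
        ((hξr 1).mul (isRes_const (v := v) (q 0)))
      convert h3 using 1
      rw [hbq]
      ring
    have h7 : ξ 0 * q 1 - ξ 1 * q 0 = 0 := by
      have h4 := hv'.mul (hωr.sub hαr)
      rw [zero_mul] at h4
      have h6 : hf⁻¹ * (s ^ 2 * w - s ^ 2 * α) = (s * bq) ^ 2 := by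
        rw [inv_mul_eq_div, div_eq_iff hf0]
        linear_combination -s ^ 2 * e1
      rw [h6] at h4
      exact (pow_eq_zero_iff two_ne_zero).mp ((hbqr.pow 2).unique h4)
    have h3 : ω + (α₀ * ξ 0 ^ 2 + α₁ * ξ 0 * ξ 1 + α₂ * ξ 1 ^ 2) = 0 := by
      have h4 := hωr.add hαr
      have h5 := hv'.mul ((isRes_const (v := v) κ).mul (hbpr.pow 2))
      rw [zero_mul] at h5
      have h6 : hf⁻¹ * (algebraMap k K κ * (s * bp) ^ 2) = s ^ 2 * w + s ^ 2 * α := by
        rw [inv_mul_eq_div, div_eq_iff hf0]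
        linear_combination -s ^ 2 * e2
      rw [h6] at h5
      exact h4.unique h5
    obtain ⟨l, hl, rfl⟩ := Pth.exists_smul hq hξ h7
    have hqq : wq ^ 2 = qu (cf Q r) q := by
      rw [hid q, h2]
      ring
    have h8 : ω = l ^ 2 * wq := by
      linear_combination h3 - l ^ 2 * h2
    rw [h8, qpt_smul hr hq hl hqq]

end Pool.Agent.Helper83.QF

end CX
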