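import Mathlib
import Pool.Agent.Helper9.NS
import Pool.Agent.Helper40.CX.H83QF.Bc
import Pool.Agent.Helper40.CX.H83QF.Sum
import Pool.Agent.Helper40.CX.H83QF.Lft
import Pool.Agent.Helper40.CX.H83QF.Ovv
import Pool.Agent.Helper40.CX.H83QF.Uni
import Pool.Agent.Helper40.CX.H83QF.Sng
import Pool.Agent.Helper40.CX.Good2

namespace CX

/-!
# Block PHI: the function on the Jacobian fibration
Proof of `phi_eq`. Replace the coordinates of `P` one after the other by those of the chosen
points: `ψ (update p i x)` as a function of `x` satisfies the hypotheses of `over_unique`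
(`induced_update`, `exists_const`, as in `EW.Odd.one`).
Proof of `phi_kills`. Let `K`, `c : Fin n → WPt Q.wei K`, `f ≠ 0` in `K`. If some `c i` is not `DW` then
no value `eval (c i) v` is `DW` (adapted coordinates, `dw_mk`, the discriminant `0` has residue `0`),
so all values of `Phi` are `0`. Otherwise take `L`, `P` from `exists_lifts`. For a place `v` of `L`,
`Phi ψ (eval c (res v)) = ψ (fun i => eval (P i) v)`: `eval (c i) (res v) = eval (wmap (c i)) v` by
`wmap_eval`; if all `eval (P i) v` are `DQ` use `over_val` and `phi_eq`; if `eval (P i) v` is not `DQ`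
for some `i` then `eval (c i) (res v)` is not `DW` (`base_val`), so `Phi = 0`, and `ψ = 0` by
`sing_zero` applied to the `i`-th variable. Now `Kills.gen` for `ψ`, `P` and `algebraMap K L f`, and
`kills_res` with `g v = Phi ψ (eval c v)`.
(What has to be proved: `Kills X ψ` is the statement about `X.Rat`, see `Helper83/VF/Defs.lean`,
`Kill.lean`; it is enough to check it on the generators of `X.Rat`, cf. `Kills.comp`, `VC.gen_mem`
and the proof of `VC.map_rat`.)
-/

set_option linter.unusedSectionVars false

namespace Pool.Agent.Helper83.QF

open VC VF Function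
open Pool.Agent.Helper51.EW (Wei WPt)

universe u

variable {k : Type u} [Field k] [IsAlgClosed k] [Good k] {Q : Qua k}

/-- The functions considered. -/
structure OddQ (Q : Qua k) (n : ℕ) (ψ : (Q.surface.pow n).Pt → ℂ) : Prop where
  kills : Kills (Q.surface.pow n) ψ
  odd : ∀ p i, ψ (update p i (neg (p i))) = -ψ p
  alt : ∀ i j, i ≠ j → ∀ p : (Q.surface.pow n).Pt, ψ (fun l => p (Equiv.swap i j l)) = -ψ p

variable {n : ℕ} {ψ : (Q.surface.pow n).Pt → ℂ}

lemma OddQ.one (h : OddQ Q n ψ) (p : (Q.surface.pow n).Pt) (i : Fin n) :
    Kills Q.surface (fun x => ψ (update p i x)) ∧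
      ∀ x, ψ (update p i (neg x)) = -ψ (update p i x) := by
  refine ⟨h.kills.comp (induced_update Q.surface p (fun K _ _ hK q => exists_const K hK q) i),
    fun x => ?_⟩
  have := h.odd (update p i x) i
  rwa [update_self, update_idem] at this

open Classical in
/-- The function on the Jacobian fibration. -/
noncomputable def Phi (ψ : (Q.surface.pow n).Pt → ℂ) (j : (Q.wei.surface.pow n).Pt) : ℂ :=
  if h : ∀ i, DW (j i) then ψ (fun i => (exists_over (j i) (h i)).choose) else 0

theorem phi_eq (h : OddQ Q n ψ) {P : (Q.surface.pow n).Pt} {j : (Q.wei.surface.pow n).Pt}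
    (h1 : ∀ i, Over (P i) (j i)) (h2 : ∀ i, DW (j i)) : Phi ψ j = ψ P := by
  classical
  unfold Phi
  rw [dif_pos h2]
  set P' : (Q.surface.pow n).Pt := fun i => (exists_over (j i) (h2 i)).choose with hP'
  have h3 : ∀ i, Over (P' i) (j i) := fun i => (exists_over (j i) (h2 i)).choose_spec
  have key : ∀ s : Finset (Fin n), ψ (fun i => if i ∈ s then P i else P' i) = ψ P' := by
    intro s
    induction s using Finset.induction_on with
    | empty => simp
    | insert a s ha ih =>
      rw [← ih]
      have hone := h.one (fun i => if i ∈ s then P i else P' i) a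
      have e1 : (fun i => if i ∈ insert a s then P i else P' i) =
          update (fun i => if i ∈ s then P i else P' i) a (P a) := by
        funext i
        by_cases hi : i = a
        · subst hi
          rw [update_self, if_pos (Finset.mem_insert_self _ _)]
        · rw [update_of_ne hi]
          by_cases his : i ∈ s
          · rw [if_pos his, if_pos (Finset.mem_insert_of_mem his)]
          · rw [if_neg his, if_neg]
            intro h4
            rcases Finset.mem_insert.mp h4 with h5 | h5
            · exact hi h5
            · exact his h5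
      have e2 : (fun i => if i ∈ s then P i else P' i) =
          update (fun i => if i ∈ s then P i else P' i) a (P' a) := by
        funext i
        by_cases hi : i = a
        · subst hi
          rw [update_self, if_neg ha]
        · rw [update_of_ne hi]
      rw [e1]
      conv_rhs => rw [e2]
      exact over_unique hone.1 hone.2 (h1 a) (h3 a) (h2 a)
  have h5 := key Finset.univ
  simp only [Finset.mem_univ, if_true] at h5
  exact h5.symm

/-- Values of points over singular fibres. -/
theorem not_dw_eval {K : Type u} [Field K] [Algebra k K] (hK : IsFunctionField k K)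
    (v : Place k K) {j : WPt Q.wei K} (h : ¬ DW j) : ¬ DW (Q.wei.surface.eval hK j v) := by
  obtain ⟨a, b, rfl, h2, h3, h4⟩ := Helper51.EW.exists_coords hK v j
  rw [h2, dw_mk]
  rw [dw_mk] at h
  have h0 : dsc (cf Q a.u) = 0 := by
    by_contra h1
    exact h h1
  rw [not_not]
  have hr : ∀ i, IsRes v (cf Q a.u i) (cf Q b.u i) := isRes_cf h3
  have e : IsRes v (dsc (cf Q a.u)) (dsc (cf Q b.u)) := by
    have c4 : IsRes v (4 : K) (4 : k) := by
      have := isRes_const (v := v) (4 : k)
      rwa [map_ofNat] at this
    have c12 : IsRes v (12 : K) (12 : k) := by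
      have := isRes_const (v := v) (12 : k)
      rwa [map_ofNat] at this
    have c3 : IsRes v (3 : K) (3 : k) := by
      have := isRes_const (v := v) (3 : k)
      rwa [map_ofNat] at this
    have c72 : IsRes v (72 : K) (72 : k) := by
      have := isRes_const (v := v) (72 : k)
      rwa [map_ofNat] at this
    have c9 : IsRes v (9 : K) (9 : k) := by
      have := isRes_const (v := v) (9 : k)
      rwa [map_ofNat] at this
    have c27 : IsRes v (27 : K) (27 : k) := by
      have := isRes_const (v := v) (27 : k)
      rwa [map_ofNat] at this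
    have c2 : IsRes v (2 : K) (2 : k) := by
      have := isRes_const (v := v) (2 : k)
      rwa [map_ofNat] at this
    have hI : IsRes v (bI (cf Q a.u)) (bI (cf Q b.u)) :=
      (((c12.mul (hr 0)).mul (hr 4)).sub ((c3.mul (hr 1)).mul (hr 3))).add ((hr 2).pow 2)
    have hJ : IsRes v (bJ (cf Q a.u)) (bJ (cf Q b.u)) :=
      ((((((c72.mul (hr 0)).mul (hr 2)).mul (hr 4)).add (((c9.mul (hr 1)).mul (hr 2)).mul (hr 3))).sub
        ((c27.mul (hr 0)).mul ((hr 3).pow 2))).sub ((c27.mul (hr 4)).mul ((hr 1).pow 2))).sub
        (c2.mul ((hr 2).pow 3))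
    exact (c4.mul (hI.pow 3)).sub (hJ.pow 2)
  rw [h0] at e
  exact (e.unique isRes_zero)

theorem phi_kills (h : OddQ Q n ψ) : Kills (Q.wei.surface.pow n) (Phi ψ) := by
  classical
  intro z hz
  have hcl : (Q.wei.surface.pow n).Rat ≤
      (LinearMap.ker (Finsupp.linearCombination ℤ (Phi ψ))).toAddSubgroup := by
    unfold Variety.Rat
    rw [AddSubgroup.closure_le]
    rintro z ⟨K, _, _, hK, c, f, hf, rfl⟩
    rw [SetLike.mem_coe, Submodule.mem_toAddSubgroup, LinearMap.mem_ker]
    rw [finsum_eq_sum_of_support_subset (s := (finite_support_ord hK hf).toFinset)]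
    · rw [map_sum]
      have e1 : ∀ v ∈ (finite_support_ord hK hf).toFinset,
          Finsupp.linearCombination ℤ (Phi ψ)
            (Finsupp.single ((Q.wei.surface.pow n).eval hK c v) (ord v.ring f)) =
          (ord v.ring f : ℂ) * Phi ψ (fun i => Q.wei.surface.eval hK (c i) v) := by
        intro v _
        rw [Finsupp.linearCombination_single, zsmul_eq_mul]
      rw [Finset.sum_congr rfl e1]
      by_cases hdw : ∀ i, DW (c i)
      · obtain ⟨L, _, _, _, _, hL, P, hP⟩ := exists_lifts hK c hdw
        have h1 : algebraMap K L f ≠ 0 := by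
          rw [Ne, _root_.map_eq_zero]
          exact hf
        refine kills_res hK hL (fun v => Phi ψ (fun i => Q.wei.surface.eval hK (c i) v)) hf h1 ?_
        have hval : ∀ v : Place k L,
            Phi ψ (fun i => Q.wei.surface.eval hK (c i) (VQ.res hK hL v)) =
              ψ ((Q.surface.pow n).eval hL P v) := by
          intro v
          have e2 : (fun i => Q.wei.surface.eval hK (c i) (VQ.res hK hL v)) =
              fun i => Q.wei.surface.eval hL (wmap (IsScalarTower.toAlgHom k K L) (c i)) v := by
            funext i
            exact (wmap_eval hK hL (c i) v).symm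
          rw [e2]
          by_cases hd : ∀ i, DQ (Q.surface.eval hL (P i) v)
          · exact phi_eq h (fun i => over_val hL v (hP i) (hd i))
              (fun i => (base_val hL v (hP i)).2 (hd i))
          · rw [not_forall] at hd
            obtain ⟨i, hi⟩ := hd
            have h2 : ¬ ∀ i, DW (Q.wei.surface.eval hL (wmap (IsScalarTower.toAlgHom k K L) (c i)) v) :=
              fun h3 => hi ((base_val hL v (hP i)).1 (h3 i))
            unfold Phi
            rw [dif_neg h2]
            have hone := h.one ((Q.surface.pow n).eval hL P v) i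
            have h4 := sing_zero hone.1 hone.2 hi
            have h5 : update ((Q.surface.pow n).eval hL P v) i (Q.surface.eval hL (P i) v) =
                (Q.surface.pow n).eval hL P v := update_eq_self i _
            rw [h5] at h4
            exact h4.symm
        simp only [hval]
        exact h.kills.gen hL P h1
      · apply Finset.sum_eq_zero
        intro v _
        rw [not_forall] at hdw
        obtain ⟨i, hi⟩ := hdw
        have h2 : ¬ ∀ i, DW (Q.wei.surface.eval hK (c i) v) := fun h3 => not_dw_eval hK v hi (h3 i)
        unfold Phi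
        rw [dif_neg h2, mul_zero]
    · intro v hv
      rw [Set.Finite.coe_toFinset, Set.mem_ofPred_eq]
      intro h0
      apply hv
      beta_reduce
      rw [h0, Finsupp.single_zero]
  exact hcl hz

end Pool.Agent.Helper83.QF

end CX
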