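import Mathlib
import Pool.Agent.Helper9.NS
import Pool.Agent.Helper40.CX.H83KV.Final
import Pool.Agent.Helper40.CX.H83QF.Phi
import Pool.Agent.Helper40.CX.H83QF.Evn
import Pool.Agent.Helper40.CX.Good2

namespace CX

/-!
# Fibrations by double covers of the line branched at four points: the assembly
-/

set_option linter.unusedSectionVars false

namespace Pool.Agent.Helper83.QF

open VC VF Function
open Pool.Agent.Helper51.EW (Wei WPt)

universe u

variable {k : Type u} [Field k] [IsAlgClosed k] [Good k] {Q : Qua k} {n : ℕ}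
  {ψ : (Q.surface.pow n).Pt → ℂ}

theorem phi_odd (h : OddQ Q n ψ) : Helper51.EW.Odd Q.wei n (Phi ψ) := by
  classical
  refine ⟨phi_kills h, fun j i => ?_, fun i l hil j => ?_⟩
  · by_cases hd : ∀ s, DW (j s)
    · choose P hP using fun s => exists_over (j s) (hd s)
      have h1 : ∀ s, Over (update P i (neg (P i)) s) (update j i (Helper51.EW.neg (j i)) s) := by
        intro s
        by_cases hs : s = i
        · subst hs
          rw [update_self, update_self]
          exact over_neg (hP s)
        · rw [update_of_ne hs, update_of_ne hs]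
          exact hP s
      have h2 : ∀ s, DW (update j i (Helper51.EW.neg (j i)) s) := by
        intro s
        by_cases hs : s = i
        · subst hs
          rw [update_self]
          rw [dw_of_over (over_neg (hP s))]
          obtain ⟨a, ha, h3⟩ := (dw_of_over (hP s)).mp (hd s)
          rw [ha, neg_mk, dq_mk]
          exact h3
        · rw [update_of_ne hs]
          exact hd s
      rw [phi_eq h h1 h2, phi_eq h hP hd, h.odd]
    · have hd' : ¬ ∀ s, DW (update j i (Helper51.EW.neg (j i)) s) := by
        intro h3
        apply hd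
        intro s
        have h4 := h3 s
        by_cases hs : s = i
        · subst hs
          rw [update_self] at h4
          obtain ⟨b, hb⟩ := Helper51.EW.exists_mk (j s)
          rw [hb, Helper51.EW.neg_mk, dw_mk] at h4
          rw [hb, dw_mk]
          exact h4
        · rwa [update_of_ne hs] at h4
      unfold Phi
      rw [dif_neg hd, dif_neg hd', neg_zero]
  · by_cases hd : ∀ s, DW (j s)
    · choose P hP using fun s => exists_over (j s) (hd s)
      have h1 : ∀ s, Over ((fun m => P (Equiv.swap i l m)) s) ((fun m => j (Equiv.swap i l m)) s) :=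
        fun s => hP _
      rw [phi_eq h h1 (fun s => hd _), phi_eq h hP hd, h.alt i l hil]
    · have hd' : ¬ ∀ s, DW ((fun m => j (Equiv.swap i l m)) s) := by
        intro h3
        apply hd
        intro s
        have h4 := h3 (Equiv.swap i l s)
        beta_reduce at h4
        rwa [Equiv.swap_apply_self] at h4
      unfold Phi
      rw [dif_neg hd, dif_neg hd', neg_zero]

/-- If a point of the Jacobian fibration lies on a smooth fibre, the discriminant is not zero. -/
lemma disc_ne {P : QPt Q k} (h : DQ P) :
    4 * Q.wei.A ^ 3 + 27 * Q.wei.B ^ 2 ≠ 0 := by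
  obtain ⟨a, rfl, h1⟩ := h
  intro h0
  apply h1
  have h2 := congrArg (MvPolynomial.aeval a.u) h0
  simp only [map_add, map_mul, map_pow, map_zero, map_ofNat] at h2
  rw [disc_eq] at h2
  exact (mul_eq_zero.mp h2).resolve_left (by norm_num)

theorem odd_zero (hN : Q.N = 2) (hn : 2 ≤ n) (h : OddQ Q n ψ) (P : (Q.surface.pow n).Pt) :
    ψ P = 0 := by
  by_cases hd : ∀ i, DQ (P i)
  · choose j hj using fun i => over_of_dq (hd i)
    have hd' : ∀ i, DW (j i) := fun i => (dw_of_over (hj i)).mpr (hd i)
    obtain ⟨D⟩ := KV.exists_core Q.wei hN (disc_ne (hd ⟨0, by omega⟩))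
    rw [← phi_eq h hj hd']
    exact KV.odd_zero D hn (phi_odd h) j
  · push Not at hd
    obtain ⟨i, hi⟩ := hd
    obtain ⟨h1, h2⟩ := h.one P i
    have h3 := sing_zero h1 h2 hi
    rwa [update_eq_self] at h3

/-- The action of `ℤ / 2`. -/
noncomputable def negAct (Q : Qua k) : VH.Act Q.surface 2 :=
  VH.Act.ofIterate (X := Q.surface) neg induced_neg (fun p => neg_neg' p)

theorem voisin (hN : Q.N = 2) (hn : 2 ≤ n)
    (a : Fin n → Q.surface.Cycles) (ha : ∀ i, (a i).sum (fun _ c => c) = 0) :
    ∃ M : ℕ, 0 < M ∧ M • ∑ σ : Equiv.Perm (Fin n), ((Equiv.Perm.sign σ : ℤˣ) : ℤ) •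
      extProd (fun i => a (σ i)) ∈ (Q.surface.pow n).Rat := by
  refine VH.assembly_deg (negAct Q) n a ha fun E hE χ Ψ h => ?_
  have hact : ∀ p : Q.surface.Pt, (negAct Q).act 1 p = neg p := fun p => rfl
  have hconst : ∀ (K : Type u) [Field K] [Algebra k K] (hK : IsFunctionField k K)
      (p : Q.surface.Pt), ∃ c : Q.surface.Mor K, ∀ v, Q.surface.eval hK c v = p :=
    fun K _ _ hK q => exists_const K hK q
  by_cases h0 : ∃ i, χ i = 0
  · right
    obtain ⟨i, hi⟩ := h0
    refine ⟨i, fun p x y => ?_⟩
    obtain ⟨h1, h2⟩ := h.one hconst p i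
    refine even_const h1 (fun q => ?_) x y
    have := h2 1 q
    rw [hi, zero_mul, AddChar.map_zero_eq_one, one_mul, hact] at this
    exact this
  · left
    push Not at h0
    have hχ : ∀ i, χ i = 1 := by
      intro i
      have h1 := h0 i
      have : ∀ z : ZMod 2, z ≠ 0 → z = 1 := by decide
      exact this _ h1
    have hE1 : E 1 = -1 := by
      have h1 : E 1 * E 1 = 1 := by
        rw [← AddChar.map_add_eq_mul]
        have : (1 : ZMod 2) + 1 = 0 := by decide
        rw [this, AddChar.map_zero_eq_one]
      rcases mul_self_eq_one_iff.mp h1 with h2 | h2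
      · exact absurd (hE.1 _ h2) (by decide)
      · exact h2
    intro p
    refine odd_zero hN hn ⟨h.kills, fun p i => ?_, fun i j hij p => ?_⟩ p
    · have := h.equi p i 1
      rw [hχ i, one_mul, hE1, hact] at this
      rw [this]; ring
    · exact h.alt i j hij (by rw [hχ i, hχ j]) p

end Pool.Agent.Helper83.QF

end CX
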